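import Pool.Agent.Lib_helper74.MG.Gf

/-!
# Mass gap of pairs of strands, II: classes of walks and their splittings (helper74)
-/

set_option autoImplicit false

namespace Pool.Agent.MG

open Pool.Agent.Lib27 Pool.Agent.SapR
open scoped ENNReal

/-- self-avoiding words -/
def SW : Set Wd := {w | SAWs w}

/-- bridges of height `H` -/
def Bri (H : ℕ) : Set Wd :=
  {w | SAWs w ∧ lev (ep 0 w) = H ∧ ∀ p ∈ (vs 0 w).tail, 0 < lev p ∧ lev p < H}

/-- self-avoiding words ending at level `H` -/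
def Tp (H : ℕ) : Set Wd := {w | SAWs w ∧ lev (ep 0 w) = H}

/-- self-avoiding words ending at level `-H` -/
def Dn (H : ℕ) : Set Wd := {w | SAWs w ∧ lev (ep 0 w) = -(H : ℤ)}

/-- first passage words: the end point is the only vertex at level `≥ H` -/
def Fp (H : ℕ) : Set Wd := {w | SAWs w ∧ lev (ep 0 w) = H ∧ ∀ p ∈ vs 0 w, lev p < H}

/-- generating function of all self-avoiding words -/
noncomputable def chi (x : ℝ≥0∞) : ℝ≥0∞ := gw x SW

theorem nil_mem_SW : ([] : Wd) ∈ SW := by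
  show (vt 0 []).Nodup
  simp

theorem one_le_chi (x : ℝ≥0∞) : 1 ≤ chi x := one_le_gw x nil_mem_SW

/-! ### vertices of concatenations -/

theorem mem_vs_append_left {u : Wd} (v : Wd) {p : ℤ × ℤ} (h : p ∈ vs 0 u) : p ∈ vs 0 (u ++ v) := by
  rw [vs_append]; exact List.mem_append_left _ h

theorem mem_vs_append_right (u : Wd) {v : Wd} {p : ℤ × ℤ} (h : p ∈ vs 0 v) :
    p + ep 0 u ∈ vs 0 (u ++ v) := by
  rw [vs_append, vs_eq (ep 0 u)]
  exact List.mem_append_right _ (List.mem_map.2 ⟨p, h, rfl⟩)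

theorem mem_vt_append_left {u : Wd} (v : Wd) {p : ℤ × ℤ} (h : p ∈ vt 0 u) : p ∈ vt 0 (u ++ v) := by
  rw [vt_append']; exact List.mem_append_left _ h

theorem mem_vt_append_right (u : Wd) {v : Wd} {p : ℤ × ℤ} (h : p ∈ vt 0 v) :
    p + ep 0 u ∈ vt 0 (u ++ v) := by
  rw [vt_append, vt_eq (ep 0 u)]
  exact List.mem_append_right _ (List.mem_map.2 ⟨p, h, rfl⟩)

theorem vs_tail_append {u : Wd} (v : Wd) (hu : u ≠ []) :
    (vs 0 (u ++ v)).tail = (vs 0 u).tail ++ (vs 0 v).map (· + ep 0 u) := by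
  rw [vs_append, vs_eq (ep 0 u), vs_eq_cons u 0 hu]
  simp

theorem lev_ep_append (u v : Wd) : lev (ep 0 (u ++ v)) = lev (ep 0 u) + lev (ep 0 v) := by
  rw [ep_append0, lev_add]

theorem mem_vt_iff {w : Wd} {p : ℤ × ℤ} : p ∈ vt 0 w ↔ p ∈ vs 0 w ∨ p = ep 0 w := by
  unfold vt; simp

theorem mem_vs_iff {w : Wd} (hw : w ≠ []) {p : ℤ × ℤ} : p ∈ vs 0 w ↔ p = 0 ∨ p ∈ (vs 0 w).tail := by
  conv_lhs => rw [vs_eq_cons w 0 hw, List.mem_cons]

theorem mem_vt_tail_iff {w : Wd} (hw : w ≠ []) {p : ℤ × ℤ} :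
    p ∈ (vt 0 w).tail ↔ p ∈ (vs 0 w).tail ∨ p = ep 0 w := by
  cases w with
  | nil => exact absurd rfl hw
  | cons d w =>
    rw [vt_cons, List.tail_cons, vs_cons, List.tail_cons, vt, List.mem_append, List.mem_singleton]
    rfl

theorem SAWs_left {u v : Wd} (h : SAWs (u ++ v)) : SAWs u := (SAWs_append u v h).1

theorem SAWs_right {u v : Wd} (h : SAWs (u ++ v)) : SAWs v := (SAWs_append u v h).2

/-! ### the tail stays on one side -/

theorem tail_gt {h : ℤ} {s : Wd} {p : ℤ × ℤ} (hne : ∀ v ∈ (vt p s).tail, lev v ≠ h)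
    (hend : h < lev (ep p s)) : ∀ v ∈ (vt p s).tail, h < lev v := by
  cases s with
  | nil => simp
  | cons d s =>
    rw [vt_cons, List.tail_cons] at hne ⊢
    rw [ep_cons] at hend
    rcases lt_or_gt_of_ne (hne (p + dv d) (mem_vt_self _ _)) with h1 | h1
    · have := lt_of_ne_levels h s (p + dv d) h1 hne _ (ep_mem_vt _ _)
      omega
    · exact gt_of_ne_levels h s (p + dv d) h1 hne

theorem tail_lt {h : ℤ} {s : Wd} {p : ℤ × ℤ} (hne : ∀ v ∈ (vt p s).tail, lev v ≠ h)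
    (hend : lev (ep p s) < h) : ∀ v ∈ (vt p s).tail, lev v < h := by
  cases s with
  | nil => simp
  | cons d s =>
    rw [vt_cons, List.tail_cons] at hne ⊢
    rw [ep_cons] at hend
    rcases lt_or_gt_of_ne (hne (p + dv d) (mem_vt_self _ _)) with h1 | h1
    · exact lt_of_ne_levels h s (p + dv d) h1 hne
    · have := gt_of_ne_levels h s (p + dv d) h1 hne _ (ep_mem_vt _ _)
      omega

/-- splitting at the first visit of the level `h` (above the start) -/
theorem first_visit {w : Wd} {h : ℤ} (h0 : 0 ≤ h) (hv : ∃ v ∈ vt 0 w, h ≤ lev v) :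
    ∃ u v, w = u ++ v ∧ lev (ep 0 u) = h ∧ ∀ p ∈ vs 0 u, lev p < h := by
  obtain ⟨z, hz, hzh⟩ := hv
  have hex : ∃ v ∈ vt 0 w, lev v = h := by
    by_contra hcon
    push Not at hcon
    have h1 := lt_of_ne_levels h w 0 (lt_of_le_of_ne (by simpa using h0) (by
      have := hcon 0 (mem_vt_self _ _)
      simpa using this)) hcon z hz
    omega
  obtain ⟨u, v, rfl, h1, h2⟩ := split_first (fun v => lev v = h) w 0 hex
  refine ⟨u, v, rfl, h1, ?_⟩
  rcases eq_or_ne u [] with rfl | hu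
  · simp
  · have h3 : (0 : ℤ × ℤ) ∈ vs 0 u := by rw [vs_eq_cons u 0 hu]; exact List.mem_cons_self ..
    have h4 := h2 0 h3
    exact lt_of_ne_levels_vs h u 0 (lt_of_le_of_ne (by simpa using h0) h4) h2

/-- splitting at the last visit of the level `h` (below the end point) -/
theorem last_visit {w : Wd} {h : ℤ} (hex : ∃ v ∈ vt 0 w, lev v = h) (hend : h < lev (ep 0 w)) :
    ∃ u v, w = u ++ v ∧ lev (ep 0 u) = h ∧ (∀ p ∈ (vs 0 v).tail, 0 < lev p) ∧
      0 < lev (ep 0 v) := by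
  obtain ⟨u, v, rfl, h1, h2⟩ := split_last (fun v => lev v = h) w 0 hex
  have h1 : lev (ep 0 u) = h := h1
  have hep : 0 < lev (ep 0 v) := by
    rw [lev_ep_append] at hend
    omega
  refine ⟨u, v, rfl, h1, ?_, hep⟩
  have hv : v ≠ [] := by rintro rfl; simp at hep
  intro p hp
  have h3 : p + ep 0 u ∈ (vt (ep 0 u) v).tail := by
    rw [vt_tail_map]
    exact List.mem_map.2 ⟨p, (mem_vt_tail_iff hv).2 (Or.inl hp), rfl⟩
  have h4 := tail_gt (h := h) (s := v) (p := ep 0 u) h2 (by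
    rw [ep_append] at hend; exact hend) _ h3
  rw [lev_add] at h4
  omega

/-! ### elementary facts on the classes -/

theorem Bri_zero : Bri 0 = {([] : Wd)} := by
  ext w
  constructor
  · rintro ⟨h1, h2, h3⟩
    cases w with
    | nil => rfl
    | cons d w =>
      exfalso
      cases w with
      | nil =>
        rw [ep_cons, ep_nil, zero_add] at h2
        rcases lev_dv d with h | h <;> rw [h] at h2 <;> simp at h2
      | cons e w =>
        have := h3 (0 + dv d) (by rw [vs_cons, List.tail_cons, vs_cons]; exact List.mem_cons_self ..)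
        simp only [Nat.cast_zero] at this
        omega
  · rintro rfl
    refine ⟨nil_mem_SW, by simp, by simp⟩

theorem ne_nil_of_Tp {H : ℕ} (hH : 0 < H) {w : Wd} (h : lev (ep 0 w) = H) : w ≠ [] := by
  rintro rfl
  simp at h
  omega

theorem Bri_sub_Fp (H : ℕ) : Bri H ⊆ Fp H := by
  rcases Nat.eq_zero_or_pos H with rfl | hH
  · rw [Bri_zero]
    rintro w rfl
    exact ⟨nil_mem_SW, by simp, by simp⟩
  · rintro w ⟨h1, h2, h3⟩
    refine ⟨h1, h2, fun p hp => ?_⟩
    rcases (mem_vs_iff (ne_nil_of_Tp hH h2)).1 hp with rfl | hp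
    · simpa using hH
    · exact (h3 p hp).2

theorem Fp_sub_Tp (H : ℕ) : Fp H ⊆ Tp H := fun _ h => ⟨h.1, h.2.1⟩

theorem Tp_sub_SW (H : ℕ) : Tp H ⊆ SW := fun _ h => h.1

/-- levels of the vertices of a bridge -/
theorem Bri_lev {H : ℕ} {w : Wd} (h : w ∈ Bri H) {p : ℤ × ℤ} (hp : p ∈ vt 0 w) :
    0 ≤ lev p ∧ lev p ≤ H := by
  rcases Nat.eq_zero_or_pos H with rfl | hH
  · rw [Bri_zero] at h
    have : w = [] := h
    subst this
    simp at hp
    subst hp
    simp
  · obtain ⟨h1, h2, h3⟩ := h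
    rcases mem_vt_iff.1 hp with hp | rfl
    · rcases (mem_vs_iff (ne_nil_of_Tp hH h2)).1 hp with rfl | hp
      · simp
      · exact ⟨(h3 p hp).1.le, (h3 p hp).2.le⟩
    · rw [h2]; omega

theorem Fp_cancel_aux {H : ℕ} {u v u' v' : Wd} (hu : u ∈ Fp H) (hu' : u' ∈ Fp H)
    (h : u ++ v = u' ++ v') (hl : u.length ≤ u'.length) : u = u' := by
  have h1 : u <+: u' := by
    apply List.prefix_of_prefix_length_le (l₃ := u ++ v) (List.prefix_append u v)
      (by rw [h]; exact List.prefix_append u' v') hl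
  obtain ⟨t, rfl⟩ := h1
  rcases eq_or_ne t [] with rfl | ht
  · simp
  · exfalso
    have h2 : ep 0 u ∈ vs 0 (u ++ t) := by
      have := mem_vs_append_right u (v := t) (p := 0)
        (by rw [vs_eq_cons t 0 ht]; exact List.mem_cons_self ..)
      simpa using this
    have h3 := hu'.2.2 _ h2
    rw [hu.2.1] at h3
    exact lt_irrefl _ h3

theorem Fp_cancel {H : ℕ} {u v u' v' : Wd} (hu : u ∈ Fp H) (hu' : u' ∈ Fp H)
    (h : u ++ v = u' ++ v') : u = u' := by
  rcases le_total u.length u'.length with hl | hl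
  · exact Fp_cancel_aux hu hu' h hl
  · exact (Fp_cancel_aux hu' hu h.symm hl).symm

theorem Fp_cancel' {H : ℕ} {u v u' v' : Wd} (hu : u ∈ Fp H) (hu' : u' ∈ Fp H)
    (h : u ++ v = u' ++ v') : u = u' ∧ v = v' := by
  have h1 := Fp_cancel hu hu' h
  subst h1
  exact ⟨rfl, List.append_cancel_left h⟩

/-! ### splittings -/

/-- a first passage word is a loop followed by a bridge -/
theorem Fp_split {H : ℕ} {w : Wd} (h : w ∈ Fp H) :
    ∃ a b, a ∈ SW ∧ b ∈ Bri H ∧ w = a ++ b ∧ lev (ep 0 a) = 0 := by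
  rcases Nat.eq_zero_or_pos H with rfl | hH
  · have h1 : w = [] := by
      rcases eq_or_ne w [] with h1 | h1
      · exact h1
      · have := h.2.2 0 (by rw [vs_eq_cons w 0 h1]; exact List.mem_cons_self ..)
        simp at this
    subst h1
    exact ⟨[], [], nil_mem_SW, by rw [Bri_zero]; rfl, rfl, by simp⟩
  · obtain ⟨a, b, rfl, h1, h2, h3⟩ := last_visit (w := w) (h := 0)
      ⟨0, mem_vt_self _ _, by simp⟩ (by rw [h.2.1]; exact_mod_cast hH)
    refine ⟨a, b, SAWs_left h.1, ⟨SAWs_right h.1, ?_, ?_⟩, rfl, h1⟩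
    · have := h.2.1
      rw [lev_ep_append] at this
      omega
    · intro p hp
      refine ⟨h2 p hp, ?_⟩
      have h4 := h.2.2 _ (mem_vs_append_right a (v := b) (p := p) (List.mem_of_mem_tail hp))
      rw [lev_add] at h4
      omega

theorem Tp_split {H : ℕ} {w : Wd} (h : w ∈ Tp H) :
    ∃ u v, u ∈ Fp H ∧ v ∈ SW ∧ w = u ++ v := by
  obtain ⟨u, v, rfl, h1, h2⟩ := first_visit (w := w) (h := H) (by positivity)
    ⟨ep 0 w, ep_mem_vt _ _, h.2.ge⟩
  exact ⟨u, v, ⟨SAWs_left h.1, h1, h2⟩, SAWs_right h.1, rfl⟩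

theorem gw_Fp_le (x : ℝ≥0∞) (H : ℕ) : gw x (Fp H) ≤ chi x * gw x (Bri H) :=
  gw_split2 x fun w hw => by
    obtain ⟨a, b, ha, hb, he, -⟩ := Fp_split hw
    exact ⟨a, b, ha, hb, he⟩

theorem gw_Tp_le (x : ℝ≥0∞) (H : ℕ) : gw x (Tp H) ≤ chi x ^ 2 * gw x (Bri H) := by
  have h1 : gw x (Tp H) ≤ gw x (Fp H) * gw x SW := gw_split2 x fun w hw => Tp_split hw
  calc gw x (Tp H) ≤ gw x (Fp H) * gw x SW := h1
    _ ≤ (chi x * gw x (Bri H)) * chi x := mul_le_mul_left (gw_Fp_le x H) _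
    _ = _ := by ring

/-- splitting a bridge at an intermediate level -/
theorem Bri_split {H H' : ℕ} {w : Wd} (h : w ∈ Bri (H + H')) :
    ∃ u l v, u ∈ Bri H ∧ l ∈ SW ∧ v ∈ Bri H' ∧ w = u ++ l ++ v := by
  rcases Nat.eq_zero_or_pos H with rfl | hH
  · rw [zero_add] at h
    exact ⟨[], [], w, by rw [Bri_zero]; rfl, nil_mem_SW, h, rfl⟩
  rcases Nat.eq_zero_or_pos H' with rfl | hH'
  · rw [add_zero] at h
    exact ⟨w, [], [], h, nil_mem_SW, by rw [Bri_zero]; rfl, by simp⟩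
  obtain ⟨h1, h2, h3⟩ := h
  obtain ⟨u, t, rfl, h4, h5⟩ := first_visit (w := w) (h := H) (by positivity)
    ⟨ep 0 w, ep_mem_vt _ _, by rw [h2]; push_cast; omega⟩
  have hu : u ≠ [] := ne_nil_of_Tp hH h4
  have h6 : lev (ep 0 t) = H' := by
    rw [lev_ep_append] at h2
    push_cast at h2
    omega
  obtain ⟨l, v, rfl, h7, h8, h9⟩ := last_visit (w := t) (h := 0)
    ⟨0, mem_vt_self _ _, by simp⟩ (by rw [h6]; exact_mod_cast hH')
  refine ⟨u, l, v, ⟨SAWs_left h1, h4, fun p hp => ⟨?_, ?_⟩⟩, SAWs_left (SAWs_right h1),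
    ⟨SAWs_right (SAWs_right h1), ?_, fun p hp => ⟨h8 p hp, ?_⟩⟩, by simp⟩
  · have := h3 p (by rw [vs_tail_append _ hu]; exact List.mem_append_left _ hp)
    exact this.1
  · exact h5 p (List.mem_of_mem_tail hp)
  · rw [lev_ep_append] at h6
    omega
  · have h10 := h3 (p + ep 0 l + ep 0 u) (by
      rw [vs_tail_append _ hu]
      exact List.mem_append_right _ (List.mem_map.2
        ⟨_, mem_vs_append_right l (List.mem_of_mem_tail hp), rfl⟩))
    rw [lev_add, lev_add] at h10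
    push_cast at h10
    omega

theorem gw_Bri_add_le (x : ℝ≥0∞) (H H' : ℕ) :
    gw x (Bri (H + H')) ≤ chi x * (gw x (Bri H) * gw x (Bri H')) := by
  have h1 : gw x (Bri (H + H')) ≤ gw x (Bri H) * gw x SW * gw x (Bri H') :=
    gw_split3 x fun w hw => by
      obtain ⟨u, l, v, hu, hl, hv, he⟩ := Bri_split hw
      exact ⟨u, l, v, hu, hl, hv, he⟩
  calc _ ≤ gw x (Bri H) * gw x SW * gw x (Bri H') := h1
    _ = _ := by unfold chi; ring

/-- concatenation of bridges -/
theorem Bri_append {H H' : ℕ} {u v : Wd} (hu : u ∈ Bri H) (hv : v ∈ Bri H') :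
    u ++ v ∈ Bri (H + H') := by
  rcases Nat.eq_zero_or_pos H with rfl | hH
  · rw [Bri_zero] at hu
    have : u = [] := hu
    subst this
    simpa using hv
  have hu' : u ≠ [] := ne_nil_of_Tp hH hu.2.1
  refine ⟨?_, ?_, ?_⟩
  · unfold SAWs
    rw [vt_append, List.nodup_append']
    refine ⟨?_, (nodup_vt _ _).2 hv.1, ?_⟩
    · have := hu.1
      unfold SAWs vt at this
      exact this.of_append_left
    · intro p hp hp'
      have h1 := (Bri_sub_Fp H hu).2.2 p hp
      rw [vt_eq, List.mem_map] at hp'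
      obtain ⟨q, hq, rfl⟩ := hp'
      have h2 := (Bri_lev hv hq).1
      rw [lev_add, hu.2.1] at h1
      omega
  · rw [lev_ep_append, hu.2.1, hv.2.1]
    push_cast
    ring
  · intro p hp
    rw [vs_tail_append v hu', List.mem_append] at hp
    rcases hp with hp | hp
    · have := hu.2.2 p hp
      push_cast
      omega
    · obtain ⟨q, hq, rfl⟩ := List.mem_map.1 hp
      have h1 := Bri_lev hv (mem_vt_iff.2 (Or.inl hq))
      have h2 := (Bri_sub_Fp H' hv).2.2 q hq
      rw [lev_add, hu.2.1]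
      push_cast
      have : (0 : ℤ) < H := by exact_mod_cast hH
      omega

theorem gw_Bri_mul_le (x : ℝ≥0∞) (H H' : ℕ) :
    gw x (Bri H) * gw x (Bri H') ≤ gw x (Bri (H + H')) :=
  gw_concat x (fun _ hu _ hv => Bri_append hu hv)
    fun _ hu _ _ _ hu' _ _ h => Fp_cancel (Bri_sub_Fp H hu) (Bri_sub_Fp H hu') h

/-- reversal exchanges ascending and descending words -/
theorem lev_ep_rv (w : Wd) : lev (ep 0 (rv w)) = -lev (ep 0 w) := by
  have h := ep_rv 0 w
  rw [ep_eq (ep 0 w)] at h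
  have h2 := congrArg lev h
  rw [lev_add, lev_zero] at h2
  omega

theorem vt_rv0 (w : Wd) : vt (ep 0 w) (rv w) = (vt 0 w).reverse := by
  have h1 := vs_rv 0 w
  unfold vt
  rw [ep_rv]
  exact h1

theorem SAWs_rv {w : Wd} (h : SAWs w) : SAWs (rv w) := by
  unfold SAWs
  rw [← nodup_vt (ep 0 w), vt_rv0, List.nodup_reverse]
  exact h

theorem rv_length (w : Wd) : (rv w).length = w.length := by simp [rv]

theorem rv_injective : Function.Injective rv := fun a b h => by
  rw [← rv_rv a, h, rv_rv]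

theorem gw_Dn_le (x : ℝ≥0∞) (H : ℕ) : gw x (Dn H) ≤ chi x ^ 2 * gw x (Bri H) := by
  refine le_trans ?_ (gw_Tp_le x H)
  refine gw_le_map x rv (fun w hw => ⟨SAWs_rv hw.1, ?_⟩) (fun a _ b _ h => rv_injective h)
    fun w _ => rv_length w
  rw [lev_ep_rv, hw.2, neg_neg]

end Pool.Agent.MG
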