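import Pool.Agent.Lib_helper74.MG.Est

/-!
# Mass gap of pairs of strands, XI: the renewal equation at the critical point (helper74)
-/

set_option autoImplicit false

namespace Pool.Agent.MG

open Pool.Agent.Lib27 Pool.Agent.SapR Finset
open scoped ENNReal

/-! ### an abstract renewal argument -/

theorem renewal_sum (p n : ℕ → ℝ≥0∞)
    (hren : ∀ H, p (H + 1) = ∑ j ∈ range (H + 1), n j * p (H - j)) (N : ℕ) :
    ∑ H ∈ range N, p (H + 1) = ∑ j ∈ range N, n j * ∑ i ∈ range (N - j), p i := by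
  calc ∑ H ∈ range N, p (H + 1) = ∑ H ∈ range N, ∑ j ∈ range (H + 1), n j * p (H - j) :=
        Finset.sum_congr rfl fun H _ => hren H
    _ = ∑ j ∈ range N, ∑ H ∈ Ico j N, n j * p (H - j) := by
        refine Finset.sum_comm' ?_
        intro H j
        simp only [mem_range, mem_Ico]
        omega
    _ = _ := by
        refine Finset.sum_congr rfl fun j _ => ?_
        rw [← Finset.mul_sum, Finset.sum_Ico_eq_sum_range]
        simp only [add_tsub_cancel_left]

theorem renewal_one (p n : ℕ → ℝ≥0∞) (h0 : p 0 = 1)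
    (hren : ∀ H, p (H + 1) = ∑ j ∈ range (H + 1), n j * p (H - j))
    {c : ℝ≥0∞} (hc : c ≠ 0) (hlow : ∀ H, c ≤ p H) (hup : ∀ H, p H ≤ 1) :
    ∑' j, n j = 1 := by
  have hS : ∀ N, ∑ i ∈ range N, p i ≤ N := by
    intro N
    calc ∑ i ∈ range N, p i ≤ ∑ _i ∈ range N, (1 : ℝ≥0∞) := Finset.sum_le_sum fun i _ => hup i
      _ = N := by simp
  have hS' : ∀ N : ℕ, N * c ≤ ∑ i ∈ range N, p i := by
    intro N
    calc N * c = ∑ _i ∈ range N, c := by simp
      _ ≤ _ := Finset.sum_le_sum fun i _ => hlow i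
  have hStop : ∀ N, ∑ i ∈ range N, p i ≠ ∞ := fun N =>
    ne_top_of_le_ne_top (ENNReal.natCast_ne_top N) (hS N)
  apply le_antisymm
  · -- not above one
    refine ENNReal.tsum_le_of_sum_range_le fun L => ?_
    by_contra hcon
    push Not at hcon
    set n' := ∑ j ∈ range L, n j with hn'
    have hpos : n' - 1 ≠ 0 := (tsub_pos_of_lt hcon).ne'
    have key : ∀ M : ℕ, (M : ℝ≥0∞) * (c * (n' - 1)) ≤ (L + 1 : ℕ) := by
      intro M
      have h1 := renewal_sum p n hren (M + L)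
      have h2 : n' * ∑ i ∈ range M, p i ≤ ∑ H ∈ range (M + L), p (H + 1) := by
        rw [h1, hn', Finset.sum_mul]
        calc ∑ j ∈ range L, n j * ∑ i ∈ range M, p i
            ≤ ∑ j ∈ range L, n j * ∑ i ∈ range (M + L - j), p i := by
              refine Finset.sum_le_sum fun j hj => mul_le_mul_right ?_ _
              rw [mem_range] at hj
              exact Finset.sum_le_sum_of_subset (range_mono (by omega))
          _ ≤ _ := Finset.sum_le_sum_of_subset (range_mono (by omega))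
      have h3 : ∑ H ∈ range (M + L), p (H + 1) ≤ ∑ i ∈ range M, p i + (L + 1 : ℕ) := by
        calc ∑ H ∈ range (M + L), p (H + 1) ≤ ∑ H ∈ range (M + L), p (H + 1) + p 0 :=
              le_self_add
          _ = ∑ i ∈ range (M + (L + 1)), p i := by
              rw [← add_assoc M L 1, Finset.sum_range_succ' p (M + L)]
          _ = ∑ i ∈ range M, p i + ∑ i ∈ range (L + 1), p (M + i) :=
              Finset.sum_range_add p M (L + 1)
          _ ≤ _ := by
              gcongr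
              calc ∑ i ∈ range (L + 1), p (M + i) ≤ ∑ _i ∈ range (L + 1), (1 : ℝ≥0∞) :=
                    Finset.sum_le_sum fun i _ => hup _
                _ = _ := by simp
      have h4 : ∑ i ∈ range M, p i + (n' - 1) * ∑ i ∈ range M, p i = n' * ∑ i ∈ range M, p i := by
        conv_rhs => rw [← add_tsub_cancel_of_le hcon.le]
        rw [add_mul, one_mul]
      have h5 : (n' - 1) * ∑ i ∈ range M, p i ≤ (L + 1 : ℕ) := by
        have h6 := h2.trans h3
        rw [← h4] at h6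
        exact (ENNReal.add_le_add_iff_left (hStop M)).1 h6
      calc (M : ℝ≥0∞) * (c * (n' - 1)) = (n' - 1) * (M * c) := by ring
        _ ≤ (n' - 1) * ∑ i ∈ range M, p i := mul_le_mul_right (hS' M) _
        _ ≤ _ := h5
    obtain ⟨M, hM⟩ := ENNReal.exists_nat_mul_gt (mul_ne_zero hc hpos)
      (ENNReal.natCast_ne_top (L + 1))
    exact absurd (key M) (not_le.2 hM)
  · -- not below one
    by_contra hcon
    push Not at hcon
    set m := ∑' j, n j with hm
    have hpos : 1 - m ≠ 0 := (tsub_pos_of_lt hcon).ne'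
    have key : ∀ N : ℕ, (N : ℝ≥0∞) * (c * (1 - m)) ≤ (1 : ℕ) := by
      intro N
      have h1 := renewal_sum p n hren N
      have h2 : ∑ i ∈ range (N + 1), p i ≤ 1 + m * ∑ i ∈ range (N + 1), p i := by
        have e : ∑ i ∈ range (N + 1), p i = 1 + ∑ H ∈ range N, p (H + 1) := by
          rw [Finset.sum_range_succ', h0, add_comm]
        calc ∑ i ∈ range (N + 1), p i = 1 + ∑ H ∈ range N, p (H + 1) := e
          _ = 1 + ∑ j ∈ range N, n j * ∑ i ∈ range (N - j), p i := by rw [h1]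
          _ ≤ 1 + ∑ j ∈ range N, n j * ∑ i ∈ range (N + 1), p i := by
              refine add_le_add le_rfl (Finset.sum_le_sum fun j _ => mul_le_mul_right ?_ _)
              exact Finset.sum_le_sum_of_subset (range_mono (by omega))
          _ = 1 + (∑ j ∈ range N, n j) * ∑ i ∈ range (N + 1), p i := by rw [Finset.sum_mul]
          _ ≤ 1 + m * ∑ i ∈ range (N + 1), p i :=
              add_le_add le_rfl (mul_le_mul_left (ENNReal.sum_le_tsum _) _)
      have h3 : (1 - m) * ∑ i ∈ range (N + 1), p i + m * ∑ i ∈ range (N + 1), p i =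
          ∑ i ∈ range (N + 1), p i := by
        rw [← add_mul, tsub_add_cancel_of_le hcon.le, one_mul]
      have h4 : (1 - m) * ∑ i ∈ range (N + 1), p i ≤ 1 := by
        have hmt : m * ∑ i ∈ range (N + 1), p i ≠ ∞ :=
          ENNReal.mul_ne_top (hcon.trans ENNReal.one_lt_top).ne (hStop _)
        conv_lhs at h2 => rw [← h3]
        exact (ENNReal.add_le_add_iff_right hmt).1 h2
      calc (N : ℝ≥0∞) * (c * (1 - m)) = (1 - m) * (N * c) := by ring
        _ ≤ (1 - m) * ∑ i ∈ range N, p i := mul_le_mul_right (hS' N) _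
        _ ≤ (1 - m) * ∑ i ∈ range (N + 1), p i :=
            mul_le_mul_right (Finset.sum_le_sum_of_subset (range_mono (by omega))) _
        _ ≤ 1 := h4
        _ = _ := by simp
    obtain ⟨M, hM⟩ := ENNReal.exists_nat_mul_gt (mul_ne_zero hc hpos)
      (ENNReal.natCast_ne_top 1)
    exact absurd (key M) (not_le.2 hM)

/-! ### the renewal equation of the pairs of bridges -/

theorem gp_Brp_succ (x : ℝ≥0∞) (H : ℕ) :
    gp x (Brp (H + 1)) = ∑ j ∈ range (H + 1), gp x (Irr (j + 1)) * gp x (Brp (H - j)) := by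
  classical
  apply le_antisymm
  · have h1 := renewal_upper x 0 1 (H + 1) (by omega) (by omega)
    have h2 : Nc 0 1 (H + 1) = Brp (H + 1) := by
      ext p
      constructor
      · exact fun h => h.1
      · intro h
        refine ⟨h, fun k h3 h4 => ?_⟩
        push_cast at h3 h4
        omega
    rw [h2] at h1
    refine h1.trans ?_
    have h3 : (range (0 + 1) ×ˢ range (H + 1 + 1)).filter
        (fun i : ℕ × ℕ => 1 ≤ i.1 + i.2 ∧ i.1 + i.2 ≤ H + 1) =
        (range (H + 1)).map ⟨fun j => (0, j + 1), fun a b h => by simpa using h⟩ := by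
      ext ⟨a, b⟩
      simp only [mem_filter, mem_product, mem_range, mem_map, Function.Embedding.coeFn_mk,
        Prod.mk.injEq]
      constructor
      · rintro ⟨⟨h1, h2⟩, h3, h4⟩
        exact ⟨b - 1, by omega, by omega, by omega⟩
      · rintro ⟨j, hj, rfl, rfl⟩
        omega
    rw [h3, Finset.sum_map]
    refine Finset.sum_le_sum fun j hj => ?_
    simp only [Function.Embedding.coeFn_mk]
    rw [gp_Brp x 0, gw_Bri_zero, one_pow, one_mul]
    have : H + 1 - (0 + (j + 1)) = H - j := by omega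
    rw [this]
  · have h1 := renewal_lower x 0 (H + 1)
      ((range (H + 1)).map ⟨fun j => (0, j + 1), fun a b h => by simpa using h⟩) (by
        rintro ⟨a, b⟩ hi
        simp only [mem_map, mem_range, Function.Embedding.coeFn_mk, Prod.mk.injEq] at hi
        obtain ⟨j, hj, rfl, rfl⟩ := hi
        simp only
        omega)
    refine le_trans ?_ h1
    rw [Finset.sum_map]
    refine Finset.sum_le_sum fun j hj => ?_
    simp only [Function.Embedding.coeFn_mk]
    rw [gp_Brp x 0, gw_Bri_zero, one_pow, one_mul]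
    have : H + 1 - (0 + (j + 1)) = H - j := by omega
    rw [this]

/-- the irreducible pairs are critical -/
theorem nn_sum {x Q : ℝ≥0∞} (h : CrE x Q) : ∑' j : ℕ, nn x Q (j + 1) = 1 := by
  have hQ0 := h.q_pos
  have hQt := h.q_top
  have hc0 : chi x ≠ 0 := (zero_lt_one.trans_le (one_le_chi x)).ne'
  refine renewal_one (fun H => gp x (Brp H) * Q⁻¹ ^ (2 * H)) (fun j => nn x Q (j + 1)) ?_ ?_
    (c := (chi x ^ 2)⁻¹) (ENNReal.inv_ne_zero.2 (ENNReal.pow_ne_top h.chi_fin)) ?_ ?_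
  · rw [gp_Brp, gw_Bri_zero]
    simp
  · intro H
    rw [gp_Brp_succ, Finset.sum_mul]
    refine Finset.sum_congr rfl fun j hj => ?_
    rw [mem_range] at hj
    have : 2 * (H + 1) = 2 * (j + 1) + 2 * (H - j) := by omega
    rw [this, pow_add, nn]
    ring
  · intro H
    rw [gp_Brp, ENNReal.inv_le_iff_le_mul
      (fun _ => pow_ne_zero _ hc0) (fun h1 => absurd h1 (ENNReal.pow_ne_top h.chi_fin))]
    calc (1 : ℝ≥0∞) = Q ^ (2 * H) * Q⁻¹ ^ (2 * H) := (pow_mul_inv_pow hQ0 hQt _).symm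
      _ = (Q ^ H) ^ 2 * Q⁻¹ ^ (2 * H) := by rw [mul_comm 2 H, pow_mul Q]
      _ ≤ (chi x * gw x (Bri H)) ^ 2 * Q⁻¹ ^ (2 * H) := by
          gcongr
          exact h.lower H
      _ = _ := by ring
  · intro H
    rw [gp_Brp]
    calc gw x (Bri H) ^ 2 * Q⁻¹ ^ (2 * H) ≤ (Q ^ H) ^ 2 * Q⁻¹ ^ (2 * H) := by
          gcongr
          exact h.upper H
      _ = Q ^ (2 * H) * Q⁻¹ ^ (2 * H) := by rw [mul_comm 2 H, pow_mul Q]
      _ = 1 := pow_mul_inv_pow hQ0 hQt _
      _ ≤ 1 := le_rfl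

/-! ### free pieces -/

theorem mem_int {w : Wd} (hw : w ≠ []) (hn : SAWs w) {p : ℤ × ℤ} :
    p ∈ (vs 0 w).tail ↔ p ∈ vt 0 w ∧ p ≠ 0 ∧ p ≠ ep 0 w := by
  unfold SAWs at hn
  have h1 : vt 0 w = 0 :: ((vs 0 w).tail ++ [ep 0 w]) := by
    unfold vt
    conv_lhs => rw [vs_eq_cons w 0 hw]
    rfl
  rw [h1] at hn ⊢
  rw [List.nodup_cons, List.mem_append, List.nodup_append] at hn
  obtain ⟨h2, h3, h4, h5⟩ := hn
  push Not at h2
  constructor
  · intro hp
    refine ⟨List.mem_cons_of_mem _ (List.mem_append_left _ hp), ?_, ?_⟩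
    · rintro rfl
      exact h2.1 hp
    · rintro rfl
      exact h5 _ hp _ (List.mem_singleton_self _) rfl
  · rintro ⟨hp, hp0, hp1⟩
    rw [List.mem_cons, List.mem_append, List.mem_singleton] at hp
    rcases hp with hp | hp | hp
    · exact absurd hp hp0
    · exact hp
    · exact absurd hp hp1

theorem vt_rv_map (w : Wd) : (vt 0 (rv w)).map (· + ep 0 w) = (vt 0 w).reverse := by
  rw [← vt_rv0, vt_eq (ep 0 w)]

theorem ep0_rv (w : Wd) : ep 0 (rv w) = -ep 0 w := by
  have h := ep_rv 0 w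
  rw [ep_eq (ep 0 w)] at h
  exact eq_neg_of_add_eq_zero_left h

theorem cnt_rv (w : Wd) (k : ℤ) : cnt (vt 0 (rv w)) k = cnt (vt 0 w) (k + lev (ep 0 w)) := by
  have h1 : cnt (vt 0 w) (k + lev (ep 0 w)) = cnt (vt 0 w).reverse (k + lev (ep 0 w)) :=
    cnt_perm (List.reverse_perm _).symm _
  rw [h1, ← vt_rv_map, cnt_map_add, add_sub_cancel_right]

theorem rv_ne_nil {w : Wd} (h : w ≠ []) : rv w ≠ [] := by
  intro h1
  apply h
  rw [← rv_rv w, h1]
  rfl

/-- interior vertices of the reversed word -/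
theorem int_rv {w : Wd} (hw : w ≠ []) (hn : SAWs w) {p : ℤ × ℤ} (hp : p ∈ (vs 0 (rv w)).tail) :
    p + ep 0 w ∈ (vs 0 w).tail := by
  rw [mem_int (rv_ne_nil hw) (SAWs_rv hn)] at hp
  obtain ⟨h1, h2, h3⟩ := hp
  rw [mem_int hw hn]
  refine ⟨?_, ?_, ?_⟩
  · have h4 : p + ep 0 w ∈ (vt 0 w).reverse := by
      rw [← vt_rv_map]
      exact List.mem_map.2 ⟨p, h1, rfl⟩
    exact List.mem_reverse.1 h4
  · intro h4
    apply h3
    rw [ep0_rv]
    exact eq_neg_of_add_eq_zero_left h4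
  · intro h4
    apply h2
    simpa using h4

theorem free_iff {j : ℕ} {p : Wd × Wd} :
    (p.1, rv p.2) ∈ Irr (j + 1) ↔ FreePiece p.1 p.2 ∧ lev (ep 0 p.1) = (j : ℤ) + 1 := by
  obtain ⟨U, D⟩ := p
  simp only
  have hnil : ∀ w : Wd, lev (ep 0 w) ≠ 0 → w ≠ [] := by
    rintro w hw rfl
    simp at hw
  constructor
  · rintro ⟨⟨⟨hU1, hU2, hU3⟩, ⟨hD1, hD2, hD3⟩⟩, hI⟩
    simp only at hU1 hU2 hU3 hD1 hD2 hD3 hI
    have hD4 : SAWs D := by rw [← rv_rv D]; exact SAWs_rv hD1
    have hlD : lev (ep 0 D) = -((j : ℤ) + 1) := by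
      rw [lev_ep_rv] at hD2
      push_cast at hD2
      omega
    have hDne : D ≠ [] := hnil D (by rw [hlD]; omega)
    push_cast at hU2 hU3 hD2 hD3 hI
    refine ⟨⟨⟨by omega, by omega, hU1, hD4, fun p hp => ?_, fun p hp => ?_⟩, ?_⟩, hU2⟩
    · rw [hU2]
      exact hU3 p hp
    · have h1 : p + ep 0 (rv D) ∈ (vs 0 (rv D)).tail :=
        int_rv (rv_ne_nil hDne) hD1 (by rw [rv_rv]; exact hp)
      have h2 := hD3 _ h1
      rw [lev_add, hD2] at h2
      rw [hlD]
      omega
    · intro k hk1 hk2 hcc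
      rw [hU2] at hk2 hcc
      refine hI k hk1 hk2 ⟨hcc.1, ?_⟩
      rw [cnt_rv, hlD]
      have := hcc.2
      rwa [show k + -((j : ℤ) + 1) = k - ((j : ℤ) + 1) by ring]
  · rintro ⟨⟨⟨h1, h2, h3, h4, h5, h6⟩, hI⟩, hU⟩
    have hDne : D ≠ [] := hnil D (by omega)
    refine ⟨⟨⟨h3, by rw [hU]; push_cast; rfl, fun p hp => ?_⟩,
      ⟨SAWs_rv h4, by rw [lev_ep_rv, h2, hU]; push_cast; ring, fun p hp => ?_⟩⟩, ?_⟩
    · have := h5 p hp
      rw [hU] at this
      push_cast
      exact this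
    · have h7 := h6 _ (int_rv hDne h4 hp)
      rw [lev_add] at h7
      push_cast
      omega
    · intro k hk1 hk2 hcc
      push_cast at hk2
      refine hI k hk1 (by omega) ⟨hcc.1, ?_⟩
      have h7 := hcc.2
      simp only at h7
      rw [cnt_rv, h2] at h7
      rwa [sub_eq_add_neg]

theorem free_sum (x S : ℝ≥0∞) :
    ∑' p : {p : Wd × Wd | FreePiece p.1 p.2}, x ^ ((p : Wd × Wd).1.length +
      (p : Wd × Wd).2.length) * S ^ (ht (p : Wd × Wd)).toNat =
    ∑' j : ℕ, gp x (Irr (j + 1)) * S ^ (j + 1) := by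
  classical
  have hR : ∑' j : ℕ, gp x (Irr (j + 1)) * S ^ (j + 1) =
      ∑' t : ℕ × (Wd × Wd), {t : ℕ × (Wd × Wd) | t.2 ∈ Irr (t.1 + 1)}.indicator
        (fun t => x ^ (t.2.1.length + t.2.2.length) * S ^ (t.1 + 1)) t := by
    refine Eq.trans ?_ (ENNReal.tsum_prod (f := fun (j : ℕ) (q : Wd × Wd) =>
      {t : ℕ × (Wd × Wd) | t.2 ∈ Irr (t.1 + 1)}.indicator
        (fun t => x ^ (t.2.1.length + t.2.2.length) * S ^ (t.1 + 1)) (j, q))).symm
    congr 1
    funext j
    rw [gp_indicator, ← ENNReal.tsum_mul_right]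
    congr 1
    funext q
    by_cases hq : q ∈ Irr (j + 1)
    · rw [Set.indicator_of_mem hq, Set.indicator_of_mem (show (j, q) ∈
        {t : ℕ × (Wd × Wd) | t.2 ∈ Irr (t.1 + 1)} from hq)]
    · rw [Set.indicator_of_notMem hq, Set.indicator_of_notMem (show (j, q) ∉
        {t : ℕ × (Wd × Wd) | t.2 ∈ Irr (t.1 + 1)} from hq), zero_mul]
  rw [hR, ← tsum_subtype {t : ℕ × (Wd × Wd) | t.2 ∈ Irr (t.1 + 1)}
    (fun t : ℕ × (Wd × Wd) => x ^ (t.2.1.length + t.2.2.length) * S ^ (t.1 + 1))]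
  have hht : ∀ p : Wd × Wd, FreePiece p.1 p.2 →
      lev (ep 0 p.1) = (((ht p).toNat - 1 : ℕ) : ℤ) + 1 := by
    intro p hp
    have h1 := hp.1.1
    have h2 : ht p = lev (ep 0 p.1) := rfl
    omega
  apply le_antisymm
  · refine tsum_le_of_inj
      (fun p : Wd × Wd => x ^ (p.1.length + p.2.length) * S ^ (ht p).toNat)
      (fun t : ℕ × (Wd × Wd) => x ^ (t.2.1.length + t.2.2.length) * S ^ (t.1 + 1))
      (fun p => ((ht p).toNat - 1, (p.1, rv p.2))) ?_ ?_ ?_
    · intro p hp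
      exact free_iff.2 ⟨hp, hht p hp⟩
    · intro p _ q _ hpq
      have h1 : p.1 = q.1 := congrArg (fun t => t.2.1) hpq
      have h2 : rv p.2 = rv q.2 := congrArg (fun t => t.2.2) hpq
      exact Prod.ext h1 (rv_injective h2)
    · intro p hp
      have h1 : FreePiece p.1 p.2 := hp
      have h2 := h1.1.1
      have h3 : ht p = lev (ep 0 p.1) := rfl
      simp only
      rw [rv_length, show (ht p).toNat - 1 + 1 = (ht p).toNat by omega]
  · refine tsum_le_of_inj
      (fun t : ℕ × (Wd × Wd) => x ^ (t.2.1.length + t.2.2.length) * S ^ (t.1 + 1))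
      (fun p : Wd × Wd => x ^ (p.1.length + p.2.length) * S ^ (ht p).toNat)
      (fun t => (t.2.1, rv t.2.2)) ?_ ?_ ?_
    · intro t ht'
      have h1 : (t.2.1, rv (rv t.2.2)) ∈ Irr (t.1 + 1) := by rw [rv_rv]; exact ht'
      exact (free_iff (p := (t.2.1, rv t.2.2))).1 h1 |>.1
    · intro t ht1 t' ht2 h
      have h' : (t.2.1, rv t.2.2) = (t'.2.1, rv t'.2.2) := h
      have h1 : t.2.1 = t'.2.1 := (Prod.mk.inj h').1
      have h2 : t.2.2 = t'.2.2 := rv_injective (Prod.mk.inj h').2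
      have h3 : lev (ep 0 t.2.1) = ((t.1 + 1 : ℕ) : ℤ) := ht1.1.1.2.1
      have h4 : lev (ep 0 t'.2.1) = ((t'.1 + 1 : ℕ) : ℤ) := ht2.1.1.2.1
      rw [h1] at h3
      have h5 : t.1 = t'.1 := by omega
      exact Prod.ext h5 (Prod.ext h1 h2)
    · intro t ht1
      have h3 : lev (ep 0 t.2.1) = ((t.1 + 1 : ℕ) : ℤ) := ht1.1.1.2.1
      have h4 : (ht (t.2.1, rv t.2.2)).toNat = t.1 + 1 := by
        show (lev (ep 0 t.2.1)).toNat = t.1 + 1
        rw [h3]
        exact Int.toNat_natCast _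
      simp only
      rw [rv_length, h4]

/-- the free pieces are critical -/
theorem free_one {x Q S : ℝ≥0∞} (h : CrE x Q) (hS : S = Q⁻¹ ^ 2) :
    ∑' p : {p : Wd × Wd | FreePiece p.1 p.2}, x ^ ((p : Wd × Wd).1.length +
      (p : Wd × Wd).2.length) * S ^ (ht (p : Wd × Wd)).toNat = 1 := by
  rw [free_sum, ← nn_sum h]
  congr 1
  funext j
  rw [nn, hS, ← pow_mul]

end Pool.Agent.MG
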