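import Pool.Agent.Lib_helper74.MG.Beyond
import Pool.Agent.Lib_helper74.MG.Renew
import Pool.Agent.Lib_helper89.FL.StmtsMG

/-!
# Mass gap of pairs of strands, XII: uniformity and the statement `MGN_Stmt` (helper74)
-/

set_option autoImplicit false

namespace Pool.Agent.MG

open Pool.Agent.Lib27 Pool.Agent.SapR Filter Topology
open scoped ENNReal NNReal

/-- the critical point as a function of the rate -/
theorem crit_compare {x₀ q₀ x q : ℝ} (h₀ : Crit x₀ q₀) (h : Crit x q) :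
    x ≤ x₀ * max 1 (q / q₀) := by
  by_contra hcon
  push Not at hcon
  have hx₀ := h₀.x_pos
  have hq₀ := h₀.q_pos
  have hx := h.x_pos
  have hq := h.q_pos
  have h1 : x₀ < x := by
    calc x₀ = x₀ * 1 := (mul_one _).symm
      _ ≤ x₀ * max 1 (q / q₀) := by gcongr; exact le_max_left _ _
      _ < x := hcon
  have h2 : x₀ * (q / q₀) < x := by
    calc x₀ * (q / q₀) ≤ x₀ * max 1 (q / q₀) := by gcongr; exact le_max_right _ _
      _ < x := hcon
  set t : ℝ := x₀ / x with ht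
  have ht0 : 0 < t := by positivity
  have ht1 : t ≤ 1 := by rw [ht, div_le_one hx]; exact h1.le
  set R : ℝ := t * q / q₀ with hR
  have hR0 : 0 < R := by positivity
  have hR1 : R < 1 := by
    rw [hR, ht, div_mul_eq_mul_div, div_div, div_lt_one (by positivity)]
    have h3 : x₀ * (q / q₀) * q₀ < x * q₀ := by gcongr
    have h4 : x₀ * (q / q₀) * q₀ = x₀ * q := by field_simp
    linarith
  have hRE : ENNReal.ofReal R < 1 := by
    have := (ENNReal.ofReal_lt_ofReal_iff (p := R) (q := 1) one_pos).2 hR1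
    simpa using this
  have hc : chi (ENNReal.ofReal x₀) ≠ ∞ := (chi_finite hx₀ h₀.x_lt).ne
  have h5 := ENNReal.Tendsto.const_mul (a := chi (ENNReal.ofReal x₀)) (pow_tendsto hRE) (Or.inr hc)
  rw [mul_zero] at h5
  obtain ⟨H, hH⟩ := (h5.eventually (gt_mem_nhds one_pos)).exists
  have h6 : ENNReal.ofReal x₀ = ENNReal.ofReal x * ENNReal.ofReal t := by
    rw [← ENNReal.ofReal_mul hx.le, ht]
    congr 1
    field_simp
  have h7 : ENNReal.ofReal (q₀ ^ H) ≤
      (chi (ENNReal.ofReal x₀) * ENNReal.ofReal R ^ H) * ENNReal.ofReal (q₀ ^ H) := by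
    calc ENNReal.ofReal (q₀ ^ H) ≤ chi (ENNReal.ofReal x₀) * gw (ENNReal.ofReal x₀) (Bri H) :=
          h₀.lower H
      _ ≤ chi (ENNReal.ofReal x₀) * (ENNReal.ofReal t ^ H * gw (ENNReal.ofReal x) (Bri H)) := by
          gcongr
          conv_lhs => rw [h6]
          exact gw_scale _ _ (by simpa using ENNReal.ofReal_le_ofReal ht1) H
      _ ≤ chi (ENNReal.ofReal x₀) * (ENNReal.ofReal t ^ H * ENNReal.ofReal (q ^ H)) := by
          gcongr
          exact h.upper H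
      _ = _ := by
          rw [mul_assoc]
          congr 1
          rw [← ENNReal.ofReal_pow ht0.le, ← ENNReal.ofReal_pow hR0.le,
            ← ENNReal.ofReal_mul (by positivity), ← ENNReal.ofReal_mul (by positivity)]
          congr 1
          rw [← mul_pow, ← mul_pow, hR]
          congr 1
          field_simp
  have h8 : ENNReal.ofReal (q₀ ^ H) ≠ 0 := by positivity
  have h9 := (ENNReal.mul_lt_mul_iff_left h8 ENNReal.ofReal_ne_top).2 hH
  rw [one_mul] at h9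
  exact absurd h7 (not_le.2 h9)

/-- sums over residue classes -/
theorem tsum_div_mod_le (f : ℕ → ℝ≥0∞) (g : ℕ → ℝ≥0∞) {n : ℕ} (hn : 0 < n)
    (h : ∀ k m : ℕ, m < n → f (k * n + m) ≤ g k) : ∑' H, f H ≤ n * ∑' k, g k := by
  have h1 : ∑' H : (Set.univ : Set ℕ), f H ≤ ∑' t : Fin n × ℕ, g t.2 := by
    refine tsum_le_of_inj' (S := (Set.univ : Set ℕ)) f (fun t : Fin n × ℕ => g t.2)
      (fun H => (⟨H % n, Nat.mod_lt _ hn⟩, H / n)) ?_ ?_
    · intro a _ b _ hab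
      have h1 : a % n = b % n := congrArg (fun t => (t.1 : ℕ)) hab
      have h2 : a / n = b / n := congrArg (fun t => t.2) hab
      rw [← Nat.div_add_mod a n, ← Nat.div_add_mod b n, h1, h2]
    · intro H _
      have := h (H / n) (H % n) (Nat.mod_lt _ hn)
      rw [mul_comm, Nat.div_add_mod] at this
      exact this
  rw [tsum_univ] at h1
  refine h1.trans (le_of_eq ?_)
  refine (ENNReal.tsum_prod (f := fun (_ : Fin n) (k : ℕ) => g k)).trans ?_
  rw [tsum_fintype]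
  simp

theorem local_gap {q₀ : ℝ} (h0 : 0 < q₀) (h1 : q₀ < 1) : ∃ C eta : ℝ≥0, 0 < eta ∧
    ∀ᶠ q : ℝ in 𝓝 q₀, ∀ x : ℝ, Crit x q →
      ∑' H : ℕ, (ENNReal.ofReal q)⁻¹ ^ (2 * H) *
        gp ((1 + (eta : ℝ≥0∞)) * ENNReal.ofReal x) (NCS H) ≤ C := by
  obtain ⟨x₀, hx₀⟩ := exists_crit h0 h1
  have hx0 := hx₀.x_pos
  obtain ⟨x₂, hx₂, hx₂c⟩ := exists_between hx₀.x_lt
  obtain ⟨x', D, θ, K, hK, hx', hx'₂, hD, hθ, hgap⟩ := gap hx₀.crE (x₂ := ENNReal.ofReal x₂)
    ((ENNReal.ofReal_lt_ofReal_iff (hx0.trans hx₂)).2 hx₂) (chi_finite (hx0.trans hx₂) hx₂c).ne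
  have hx't : x' ≠ ∞ := ne_top_of_le_ne_top ENNReal.ofReal_ne_top hx'₂
  obtain ⟨y, hy0, rfl⟩ : ∃ y : ℝ, 0 ≤ y ∧ x' = ENNReal.ofReal y :=
    ⟨x'.toReal, ENNReal.toReal_nonneg, (ENNReal.ofReal_toReal hx't).symm⟩
  have hy : x₀ < y := (ENNReal.ofReal_lt_ofReal_iff_of_nonneg hx0.le).1 hx'
  -- the room
  set e : ℝ := min 1 ((y - x₀) / (3 * x₀)) with he
  have he0 : 0 < e := lt_min one_pos (div_pos (by linarith) (by positivity))
  have he1 : e ≤ 1 := min_le_left _ _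
  have he2 : (1 + e) * (x₀ * (1 + e)) ≤ y := by
    have h2 : e * (3 * x₀) ≤ y - x₀ := by
      have h3 : e ≤ (y - x₀) / (3 * x₀) := min_le_right _ _
      rwa [le_div_iff₀ (by positivity)] at h3
    nlinarith [mul_nonneg hx0.le (mul_nonneg he0.le (sub_nonneg.2 he1))]
  -- the neighbourhood
  have hev1 : ∀ᶠ q : ℝ in 𝓝 q₀, q < q₀ * (1 + e) := by
    refine gt_mem_nhds ?_
    nlinarith [mul_pos h0 he0]
  have hev2 : ∀ᶠ q : ℝ in 𝓝 q₀, q₀ / 2 < q := lt_mem_nhds (by linarith)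
  have hev3 : ∀ᶠ q : ℝ in 𝓝 q₀, (q₀ / q) ^ (6 * K) * (3 / 4) < 7 / 8 := by
    have hcont : ContinuousAt (fun q : ℝ => (q₀ / q) ^ (6 * K) * (3 / 4)) q₀ := by
      refine ContinuousAt.mul (ContinuousAt.pow ?_ _) continuousAt_const
      exact ContinuousAt.div continuousAt_const continuousAt_id h0.ne'
    refine hcont.eventually (gt_mem_nhds ?_)
    show (q₀ / q₀) ^ (6 * K) * (3 / 4) < 7 / 8
    rw [div_self h0.ne', one_pow]
    norm_num
  set CE : ℝ≥0∞ := ((3 * K : ℕ) : ℝ≥0∞) * ((ENNReal.ofReal (q₀ / 2))⁻¹ ^ (6 * K) * D * 8) with hCE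
  have hCEt : CE ≠ ∞ := by
    refine ENNReal.mul_ne_top (ENNReal.natCast_ne_top _) (ENNReal.mul_ne_top
      (ENNReal.mul_ne_top (ENNReal.pow_ne_top (ENNReal.inv_ne_top.2 ?_)) hD) (by norm_num))
    have : 0 < q₀ / 2 := by positivity
    positivity
  refine ⟨CE.toNNReal, e.toNNReal, by simpa using he0, ?_⟩
  filter_upwards [hev1, hev2, hev3] with q hq1 hq2 hq3
  intro x hxq
  have hq := hxq.q_pos
  have hxp := hxq.x_pos
  rw [ENNReal.coe_toNNReal hCEt]
  set S : ℝ≥0∞ := (ENNReal.ofReal q)⁻¹ with hS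
  have hS1 : 1 ≤ S := ENNReal.one_le_inv.2 (by
    simpa using ENNReal.ofReal_le_ofReal hxq.q_lt.le)
  have hSle : S ≤ (ENNReal.ofReal (q₀ / 2))⁻¹ :=
    ENNReal.inv_le_inv.2 (ENNReal.ofReal_le_ofReal hq2.le)
  -- the point
  have hX : (1 + ((e.toNNReal : ℝ≥0) : ℝ≥0∞)) * ENNReal.ofReal x ≤ ENNReal.ofReal y := by
    have e1 : (1 + ((e.toNNReal : ℝ≥0) : ℝ≥0∞)) = ENNReal.ofReal (1 + e) := by
      rw [ENNReal.ofReal_add zero_le_one he0.le, ENNReal.ofReal_one]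
      rfl
    rw [e1, ← ENNReal.ofReal_mul (by positivity)]
    refine ENNReal.ofReal_le_ofReal ?_
    refine le_trans ?_ he2
    gcongr
    refine (crit_compare hx₀ hxq).trans ?_
    gcongr
    refine max_le (by linarith) ?_
    rw [div_le_iff₀ h0]
    linarith
  -- the ratio
  have hr : S ^ (6 * K) * θ ≤ 7 / 8 := by
    calc S ^ (6 * K) * θ ≤ S ^ (6 * K) * (ENNReal.ofReal q₀ ^ (6 * K) * (3 / 4)) := by gcongr
      _ = ENNReal.ofReal ((q₀ / q) ^ (6 * K) * (3 / 4)) := by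
          rw [ENNReal.ofReal_mul (by positivity), ENNReal.ofReal_pow (by positivity),
            ENNReal.ofReal_div_of_pos hq, ← mul_assoc, ← mul_pow, hS, mul_comm (ENNReal.ofReal q)⁻¹,
            ← div_eq_mul_inv]
          congr 1
          rw [ENNReal.ofReal_div_of_pos (by norm_num)]
          simp
      _ ≤ ENNReal.ofReal (7 / 8) := ENNReal.ofReal_le_ofReal hq3.le
      _ = 7 / 8 := by
          rw [ENNReal.ofReal_div_of_pos (by norm_num)]
          simp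
  have h3K : 0 < 3 * K := by omega
  have hsum := tsum_div_mod_le (fun H : ℕ => S ^ (2 * H) *
      gp ((1 + ((e.toNNReal : ℝ≥0) : ℝ≥0∞)) * ENNReal.ofReal x) (NCS H))
    (fun k => S ^ (6 * K) * D * (S ^ (6 * K) * θ) ^ k) h3K (by
      intro k m hm
      calc S ^ (2 * (k * (3 * K) + m)) *
            gp ((1 + ((e.toNNReal : ℝ≥0) : ℝ≥0∞)) * ENNReal.ofReal x) (NCS (k * (3 * K) + m))
          ≤ S ^ (k * (6 * K) + 6 * K) * (D * θ ^ k) := by
            refine mul_le_mul' (pow_le_pow_right₀ hS1 ?_) ((gp_mono_x hX _).trans (hgap k m))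
            have : 2 * (k * (3 * K) + m) = k * (6 * K) + 2 * m := by ring
            omega
        _ = _ := by rw [pow_add, mul_pow, mul_comm k (6 * K), pow_mul]; ring)
  refine hsum.trans ?_
  rw [ENNReal.tsum_mul_left, ENNReal.tsum_geometric, hCE]
  gcongr
  -- `(1 - r)⁻¹ ≤ 8`
  rw [ENNReal.inv_le_iff_le_mul (fun h => by norm_num at h) (fun h => by
    have : (1 : ℝ≥0∞) - S ^ (6 * K) * θ ≤ 1 := tsub_le_self
    rw [h] at this
    norm_num at this)]
  have h8 : (1 : ℝ≥0∞) ≤ (1 - 7 / 8) * 8 := by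
    have e1 : (7 / 8 : ℝ≥0∞) = ENNReal.ofReal (7 / 8) := by
      rw [ENNReal.ofReal_div_of_pos (by norm_num)]
      simp
    have e2 : (8 : ℝ≥0∞) = ENNReal.ofReal 8 := by simp
    rw [e1]
    conv_rhs => rw [e2]
    rw [← ENNReal.ofReal_one, ← ENNReal.ofReal_sub _ (by norm_num),
      ← ENNReal.ofReal_mul (by norm_num)]
    exact ENNReal.ofReal_le_ofReal (by norm_num)
  refine h8.trans ?_
  gcongr

theorem uniform_gap {a b : ℝ} (ha : 0 < a) (hb : b < 1) : ∃ C eta : ℝ≥0, 0 < eta ∧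
    ∀ q ∈ Set.Icc a b, ∀ x : ℝ, Crit x q →
      ∑' H : ℕ, (ENNReal.ofReal q)⁻¹ ^ (2 * H) *
        gp ((1 + (eta : ℝ≥0∞)) * ENNReal.ofReal x) (NCS H) ≤ C := by
  refine (isCompact_Icc : IsCompact (Set.Icc a b)).induction_on
    (p := fun s => ∃ C eta : ℝ≥0, 0 < eta ∧ ∀ q ∈ s, ∀ x : ℝ, Crit x q →
      ∑' H : ℕ, (ENNReal.ofReal q)⁻¹ ^ (2 * H) *
        gp ((1 + (eta : ℝ≥0∞)) * ENNReal.ofReal x) (NCS H) ≤ C) ?_ ?_ ?_ ?_
  · exact ⟨0, 1, one_pos, fun q hq => absurd hq (Set.notMem_empty q)⟩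
  · rintro s t hst ⟨C, eta, he, h⟩
    exact ⟨C, eta, he, fun q hq => h q (hst hq)⟩
  · rintro s t ⟨C, eta, he, h⟩ ⟨C', eta', he', h'⟩
    refine ⟨max C C', min eta eta', lt_min he he', ?_⟩
    rintro q (hq | hq) x hx
    · refine le_trans (ENNReal.tsum_le_tsum fun H => mul_le_mul_right (gp_mono_x ?_ _) _)
        ((h q hq x hx).trans (by exact_mod_cast le_max_left _ _))
      gcongr
      exact min_le_left _ _
    · refine le_trans (ENNReal.tsum_le_tsum fun H => mul_le_mul_right (gp_mono_x ?_ _) _)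
        ((h' q hq x hx).trans (by exact_mod_cast le_max_right _ _))
      gcongr
      exact min_le_right _ _
  · intro q hq
    obtain ⟨C, eta, he, h⟩ := local_gap (ha.trans_le hq.1) (hq.2.trans_lt hb)
    exact ⟨_, mem_nhdsWithin_of_mem_nhds h, C, eta, he, fun q' hq' => hq'⟩

/-- **the mass gap, in the form used for polygons under a force** -/
theorem mgn : FL.MGN_Stmt := by
  intro s0 s1 hs0 h01 hs1
  have h0 : 0 < Real.sqrt s0 := Real.sqrt_pos.2 (by exact_mod_cast hs0)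
  have h1 : Real.sqrt s1 < 1 := by
    rw [Real.sqrt_lt' one_pos, one_pow]
    exact_mod_cast hs1
  obtain ⟨C, eta, he, hC⟩ := uniform_gap h0 h1
  refine ⟨C, eta, he, ?_⟩
  intro s hss0 hss1
  have hs : 0 < s := hs0.trans_le hss0
  set q : ℝ := Real.sqrt s with hq
  have hq0 : 0 < q := Real.sqrt_pos.2 (by exact_mod_cast hs)
  have hq1 : q < 1 := (Real.sqrt_le_sqrt (by exact_mod_cast hss1)).trans_lt h1
  obtain ⟨x, hx⟩ := exists_crit hq0 hq1
  have hqs : ((s⁻¹ : ℝ≥0) : ℝ≥0∞) = (ENNReal.ofReal q)⁻¹ ^ 2 := by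
    rw [ENNReal.coe_inv hs.ne', ← ENNReal.inv_pow, ← ENNReal.ofReal_pow hq0.le, hq,
      Real.sq_sqrt (by positivity), ENNReal.ofReal_coe_nnreal]
  refine ⟨x.toNNReal, by simpa using hx.x_pos, ?_, ?_⟩
  · exact free_one hx.crE hqs
  · refine le_trans (ENNReal.tsum_le_tsum fun H => ?_)
      (hC q ⟨Real.sqrt_le_sqrt (by exact_mod_cast hss0),
        Real.sqrt_le_sqrt (by exact_mod_cast hss1)⟩ x hx)
    rw [hqs, ← pow_mul]
    refine mul_le_mul_right ?_ _
    have e1 : (((1 + eta) * x.toNNReal : ℝ≥0) : ℝ≥0∞) = (1 + (eta : ℝ≥0∞)) * ENNReal.ofReal x := by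
      rw [ENNReal.coe_mul, ENNReal.coe_add, ENNReal.coe_one]
      rfl
    unfold FL.gfp
    rw [e1]
    refine gp_mono (x := (1 + (eta : ℝ≥0∞)) * ENNReal.ofReal x) ?_
    rintro p ⟨hp1, hp2, hp3⟩
    exact ⟨⟨hp1.1, hp1.2.1⟩, ⟨hp2.1, hp2.2.1⟩, hp3⟩

end Pool.Agent.MG
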