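import Pool.Agent.Lib_helper24.SapR.Glue

/-!
# Mass gap of pairs of strands, I: generating functions of classes of words (helper74)
-/

set_option autoImplicit false

namespace Pool.Agent.MG

open Pool.Agent.Lib27 Pool.Agent.SapR
open scoped ENNReal

/-- words -/
abbrev Wd := List (Fin 4)

/-- generating function of a class of words -/
noncomputable def gw (x : ℝ≥0∞) (S : Set Wd) : ℝ≥0∞ := ∑' w : S, x ^ (w : Wd).length

/-- generating function of a class of pairs of words -/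
noncomputable def gp (x : ℝ≥0∞) (S : Set (Wd × Wd)) : ℝ≥0∞ :=
  ∑' p : S, x ^ ((p : Wd × Wd).1.length + (p : Wd × Wd).2.length)

theorem tsum_le_of_inj {α β : Type*} {S : Set α} {T : Set β} (f : α → ℝ≥0∞) (g : β → ℝ≥0∞)
    (φ : α → β) (hmem : ∀ a ∈ S, φ a ∈ T) (hinj : Set.InjOn φ S) (hle : ∀ a ∈ S, f a ≤ g (φ a)) :
    ∑' a : S, f a ≤ ∑' b : T, g b := by
  have h1 : ∑' a : S, f a ≤ ∑' a : S, (fun b : T => g b) (⟨φ a, hmem a a.2⟩ : T) :=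
    ENNReal.tsum_le_tsum fun a => hle a a.2
  refine h1.trans ?_
  refine ENNReal.tsum_comp_le_tsum_of_injective (f := fun a : S => (⟨φ a, hmem a a.2⟩ : T)) ?_
    (fun b : T => g b)
  intro a b hab
  exact Subtype.ext (hinj a.2 b.2 (Subtype.mk_eq_mk.1 hab))

theorem tsum_le_of_inj' {α β : Type*} {S : Set α} (f : α → ℝ≥0∞) (g : β → ℝ≥0∞)
    (φ : α → β) (hinj : Set.InjOn φ S) (hle : ∀ a ∈ S, f a ≤ g (φ a)) :
    ∑' a : S, f a ≤ ∑' b, g b := by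
  have h1 : ∑' a : S, f a ≤ ∑' a : S, g (φ a) :=
    ENNReal.tsum_le_tsum fun a => hle a a.2
  refine h1.trans ?_
  refine ENNReal.tsum_comp_le_tsum_of_injective (f := fun a : S => φ a) ?_ g
  intro a b hab
  exact Subtype.ext (hinj a.2 b.2 hab)

theorem gw_mono {x : ℝ≥0∞} {S T : Set Wd} (h : S ⊆ T) : gw x S ≤ gw x T :=
  tsum_le_of_inj (fun w : Wd => x ^ w.length) (fun w : Wd => x ^ w.length) (fun w => w)
    (fun _ hw => h hw) (Set.injOn_id S) fun _ _ => le_rfl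

theorem gw_mono_x {x y : ℝ≥0∞} (h : x ≤ y) (S : Set Wd) : gw x S ≤ gw y S :=
  ENNReal.tsum_le_tsum fun _ => by gcongr

theorem gp_mono {x : ℝ≥0∞} {S T : Set (Wd × Wd)} (h : S ⊆ T) : gp x S ≤ gp x T :=
  tsum_le_of_inj (fun p : Wd × Wd => x ^ (p.1.length + p.2.length))
    (fun p : Wd × Wd => x ^ (p.1.length + p.2.length)) (fun w => w)
    (fun _ hw => h hw) (Set.injOn_id S) fun _ _ => le_rfl

theorem gp_mono_x {x y : ℝ≥0∞} (h : x ≤ y) (S : Set (Wd × Wd)) : gp x S ≤ gp y S :=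
  ENNReal.tsum_le_tsum fun _ => by gcongr

theorem gw_union (x : ℝ≥0∞) (S T : Set Wd) : gw x (S ∪ T) ≤ gw x S + gw x T :=
  ENNReal.tsum_union_le (fun w : Wd => x ^ w.length) S T

theorem gp_union (x : ℝ≥0∞) (S T : Set (Wd × Wd)) : gp x (S ∪ T) ≤ gp x S + gp x T :=
  ENNReal.tsum_union_le (fun p : Wd × Wd => x ^ (p.1.length + p.2.length)) S T

theorem gp_iUnion {ι : Type*} (x : ℝ≥0∞) (S : ι → Set (Wd × Wd)) :
    gp x (⋃ i, S i) ≤ ∑' i, gp x (S i) :=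
  ENNReal.tsum_iUnion_le_tsum (fun p : Wd × Wd => x ^ (p.1.length + p.2.length)) S

theorem gw_iUnion {ι : Type*} (x : ℝ≥0∞) (S : ι → Set Wd) :
    gw x (⋃ i, S i) ≤ ∑' i, gw x (S i) :=
  ENNReal.tsum_iUnion_le_tsum (fun w : Wd => x ^ w.length) S

theorem gp_prod (x : ℝ≥0∞) (A B : Set Wd) : gp x (A ×ˢ B) = gw x A * gw x B := by
  unfold gp gw
  have h1 : ∑' p : (A ×ˢ B : Set (Wd × Wd)),
      x ^ ((p : Wd × Wd).1.length + (p : Wd × Wd).2.length) =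
      ∑' c : A × B, (fun (a : A) (b : B) => x ^ ((a : Wd).length + (b : Wd).length)) c.1 c.2 :=
    ((Equiv.Set.prod A B).symm.tsum_eq
      (fun p : (A ×ˢ B : Set (Wd × Wd)) =>
        x ^ ((p : Wd × Wd).1.length + (p : Wd × Wd).2.length))).symm
  rw [h1]
  refine (ENNReal.tsum_prod (f := fun (a : A) (b : B) =>
    x ^ ((a : Wd).length + (b : Wd).length))).trans ?_
  rw [← ENNReal.tsum_mul_right]
  congr 1
  funext a
  rw [← ENNReal.tsum_mul_left]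
  congr 1
  funext b
  exact pow_add _ _ _

theorem gw_split2 (x : ℝ≥0∞) {S A B : Set Wd} (h : ∀ w ∈ S, ∃ u v, u ∈ A ∧ v ∈ B ∧ w = u ++ v) :
    gw x S ≤ gw x A * gw x B := by
  choose! u v hu hv he using h
  rw [← gp_prod]
  refine tsum_le_of_inj (fun w : Wd => x ^ w.length)
    (fun p : Wd × Wd => x ^ (p.1.length + p.2.length))
    (fun w => (u w, v w)) (fun w hw => ⟨hu w hw, hv w hw⟩) ?_ ?_
  · intro w hw w' hw' heq
    have h1 : u w = u w' := congrArg Prod.fst heq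
    have h2 : v w = v w' := congrArg Prod.snd heq
    rw [he w hw, he w' hw', h1, h2]
  · intro w hw
    show x ^ w.length ≤ x ^ ((u w).length + (v w).length)
    conv_lhs => rw [he w hw, List.length_append]

theorem gw_split3 (x : ℝ≥0∞) {S A B C : Set Wd}
    (h : ∀ w ∈ S, ∃ u v t, u ∈ A ∧ v ∈ B ∧ t ∈ C ∧ w = u ++ v ++ t) :
    gw x S ≤ gw x A * gw x B * gw x C := by
  have h1 : gw x S ≤ gw x {w | ∃ u v, u ∈ A ∧ v ∈ B ∧ w = u ++ v} * gw x C := by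
    apply gw_split2
    intro w hw
    obtain ⟨u, v, t, hu, hv, ht, he⟩ := h w hw
    exact ⟨u ++ v, t, ⟨u, v, hu, hv, rfl⟩, ht, he⟩
  exact h1.trans (mul_le_mul_left (gw_split2 x fun w hw => hw) _)

theorem gw_concat (x : ℝ≥0∞) {A B T : Set Wd} (h : ∀ u ∈ A, ∀ v ∈ B, u ++ v ∈ T)
    (hinj : ∀ u ∈ A, ∀ v ∈ B, ∀ u' ∈ A, ∀ v' ∈ B, u ++ v = u' ++ v' → u = u') :
    gw x A * gw x B ≤ gw x T := by
  rw [← gp_prod]
  refine tsum_le_of_inj (fun p : Wd × Wd => x ^ (p.1.length + p.2.length))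
    (fun w : Wd => x ^ w.length) (fun p => p.1 ++ p.2)
    (fun p hp => h p.1 hp.1 p.2 hp.2) ?_ ?_
  · rintro ⟨u, v⟩ hp ⟨u', v'⟩ hp' heq
    have h1 := hinj u hp.1 v hp.2 u' hp'.1 v' hp'.2 heq
    subst h1
    have h2 : v = v' := List.append_cancel_left heq
    rw [h2]
  · rintro ⟨u, v⟩ _
    show x ^ (u.length + v.length) ≤ x ^ (u ++ v).length
    rw [List.length_append]

theorem gw_le_map (x : ℝ≥0∞) {S T : Set Wd} (φ : Wd → Wd) (hmem : ∀ w ∈ S, φ w ∈ T)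
    (hinj : Set.InjOn φ S) (hlen : ∀ w ∈ S, (φ w).length = w.length) : gw x S ≤ gw x T :=
  tsum_le_of_inj (fun w : Wd => x ^ w.length) (fun w : Wd => x ^ w.length) φ hmem hinj
    fun w hw => by rw [hlen w hw]

theorem gw_le_one_of_nil (x : ℝ≥0∞) {S : Set Wd} (h : ∀ w ∈ S, w = []) : gw x S ≤ 1 := by
  have h1 : gw x S ≤ gw x {[]} := gw_mono fun w hw => h w hw
  refine h1.trans ?_
  unfold gw
  rw [tsum_singleton ([] : Wd) (fun w : Wd => x ^ w.length)]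
  simp

theorem one_le_gw (x : ℝ≥0∞) {S : Set Wd} (h : [] ∈ S) : 1 ≤ gw x S := by
  have h1 : gw x {[]} ≤ gw x S := gw_mono (Set.singleton_subset_iff.2 h)
  refine le_trans ?_ h1
  unfold gw
  rw [tsum_singleton ([] : Wd) (fun w : Wd => x ^ w.length)]
  simp

/-! ### convexity -/

theorem pow_convex (w₁ w₂ z₁ z₂ : ℝ≥0∞) (hw : w₁ + w₂ = 1) (n : ℕ) :
    (w₁ * z₁ + w₂ * z₂) ^ n ≤ w₁ * z₁ ^ n + w₂ * z₂ ^ n := by
  rcases Nat.eq_zero_or_pos n with rfl | hn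
  · simp [hw]
  · have h := ENNReal.rpow_arith_mean_le_arith_mean2_rpow w₁ w₂ z₁ z₂ hw (p := (n : ℝ))
      (by exact_mod_cast hn)
    simpa only [ENNReal.rpow_natCast] using h

theorem tsum_pow_convex {α : Type*} (c : α → ℝ≥0∞) (n : α → ℕ) (w₁ w₂ z₁ z₂ : ℝ≥0∞)
    (hw : w₁ + w₂ = 1) :
    ∑' a, c a * (w₁ * z₁ + w₂ * z₂) ^ n a ≤
      w₁ * ∑' a, c a * z₁ ^ n a + w₂ * ∑' a, c a * z₂ ^ n a := by
  rw [← ENNReal.tsum_mul_left, ← ENNReal.tsum_mul_left, ← ENNReal.tsum_add]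
  refine ENNReal.tsum_le_tsum fun a => ?_
  calc c a * (w₁ * z₁ + w₂ * z₂) ^ n a ≤ c a * (w₁ * z₁ ^ n a + w₂ * z₂ ^ n a) :=
        mul_le_mul_right (pow_convex w₁ w₂ z₁ z₂ hw (n a)) _
    _ = _ := by ring

/-- right continuity of power series with nonnegative coefficients -/
theorem tsum_pow_right {α : Type*} (c : α → ℝ≥0∞) (n : α → ℕ) {x₀ x₁ τ : ℝ≥0∞} (h01 : x₀ < x₁)
    (hfin : ∑' a, c a * x₁ ^ n a ≠ ∞) (hτ : ∑' a, c a * x₀ ^ n a < τ) :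
    ∃ x, x₀ < x ∧ x ≤ x₁ ∧ ∑' a, c a * x ^ n a < τ := by
  set F₀ := ∑' a, c a * x₀ ^ n a with hF₀
  set F₁ := ∑' a, c a * x₁ ^ n a with hF₁
  have hpos : τ - F₀ ≠ 0 := (tsub_pos_of_lt hτ).ne'
  obtain ⟨t, ht0, ht⟩ := ENNReal.exists_nnreal_pos_mul_lt hfin hpos
  set s : NNReal := min t (1 / 2) with hs
  have hs0 : 0 < s := lt_min ht0 (by norm_num)
  have hs1 : s ≤ 1 / 2 := min_le_right _ _
  have hst : (s : ℝ≥0∞) * F₁ < τ - F₀ :=
    lt_of_le_of_lt (mul_le_mul_left (by exact_mod_cast min_le_left t (1 / 2)) _) ht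
  have hsum : ((1 - s : NNReal) : ℝ≥0∞) + (s : ℝ≥0∞) = 1 := by
    rw [← ENNReal.coe_add, tsub_add_cancel_of_le (hs1.trans (by norm_num)), ENNReal.coe_one]
  refine ⟨((1 - s : NNReal) : ℝ≥0∞) * x₀ + (s : ℝ≥0∞) * x₁, ?_, ?_, ?_⟩
  · have hx₀ : x₀ ≠ ∞ := (h01.trans_le le_top).ne
    calc x₀ = ((1 - s : NNReal) : ℝ≥0∞) * x₀ + (s : ℝ≥0∞) * x₀ := by
          rw [← add_mul, hsum, one_mul]
      _ < _ := by
          refine ENNReal.add_lt_add_left (ENNReal.mul_ne_top ENNReal.coe_ne_top hx₀) ?_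
          exact (ENNReal.mul_lt_mul_iff_right (by exact_mod_cast hs0.ne') ENNReal.coe_ne_top).2 h01
  · calc ((1 - s : NNReal) : ℝ≥0∞) * x₀ + (s : ℝ≥0∞) * x₁
        ≤ ((1 - s : NNReal) : ℝ≥0∞) * x₁ + (s : ℝ≥0∞) * x₁ := by gcongr
      _ = x₁ := by rw [← add_mul, hsum, one_mul]
  · refine lt_of_le_of_lt (tsum_pow_convex c n _ _ x₀ x₁ hsum) ?_
    rw [← hF₀, ← hF₁]
    have h1 : ((1 - s : NNReal) : ℝ≥0∞) * F₀ ≤ F₀ := by
      calc ((1 - s : NNReal) : ℝ≥0∞) * F₀ ≤ 1 * F₀ := by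
            gcongr
            rw [← hsum]; exact le_self_add
        _ = F₀ := one_mul _
    calc ((1 - s : NNReal) : ℝ≥0∞) * F₀ + (s : ℝ≥0∞) * F₁ ≤ F₀ + (s : ℝ≥0∞) * F₁ := by gcongr
      _ < F₀ + (τ - F₀) := ENNReal.add_lt_add_left (hτ.trans_le le_top).ne hst
      _ = τ := add_tsub_cancel_of_le hτ.le

/-- left continuity of power series with nonnegative coefficients -/
theorem tsum_pow_left {α : Type*} (c : α → ℝ≥0∞) (n : α → ℕ) {x₀ τ : ℝ≥0∞} (hx₀ : x₀ ≠ 0)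
    (h : ∀ x < x₀, ∑' a, c a * x ^ n a ≤ τ) : ∑' a, c a * x₀ ^ n a ≤ τ := by
  rw [ENNReal.tsum_eq_iSup_sum]
  refine iSup_le fun F => ?_
  have h1 : ∀ x < x₀, ∑ a ∈ F, c a * x ^ n a ≤ τ := fun x hx =>
    (ENNReal.sum_le_tsum F).trans (h x hx)
  by_contra hcon
  push Not at hcon
  -- finite powers are sup of the values on the left
  have h2 : ∀ a : α, c a * x₀ ^ n a ≤ ⨆ x : {x : ℝ≥0∞ // x < x₀}, c a * (x : ℝ≥0∞) ^ n a := by
    intro a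
    rw [← ENNReal.mul_iSup]
    refine mul_le_mul_right ?_ _
    refine le_of_forall_lt fun r hr => ?_
    obtain ⟨r', hr', hr''⟩ := exists_between hr
    -- `x ↦ x ^ n` is continuous at `x₀`
    have hc : Filter.Tendsto (fun x : ℝ≥0∞ => x ^ n a) (nhds x₀) (nhds (x₀ ^ n a)) :=
      (ENNReal.continuous_pow (n a)).tendsto x₀
    have hev := hc.eventually (lt_mem_nhds hr'')
    obtain ⟨l, hl, hlx⟩ := (mem_nhdsLT_iff_exists_Ioo_subset' (pos_iff_ne_zero.2 hx₀)).1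
      (mem_nhdsWithin_of_mem_nhds hev)
    obtain ⟨y, hy1, hy2⟩ := exists_between (show l < x₀ from hl)
    have h3 := hlx ⟨hy1, hy2⟩
    exact lt_of_lt_of_le (hr'.trans h3)
      (le_iSup (fun x : {x : ℝ≥0∞ // x < x₀} => (x : ℝ≥0∞) ^ n a) ⟨y, hy2⟩)
  have h3 : ∑ a ∈ F, c a * x₀ ^ n a ≤ ∑ a ∈ F, ⨆ x : {x : ℝ≥0∞ // x < x₀}, c a * (x : ℝ≥0∞) ^ n a :=
    Finset.sum_le_sum fun a _ => h2 a
  have : Nonempty {x : ℝ≥0∞ // x < x₀} := ⟨⟨0, pos_iff_ne_zero.2 hx₀⟩⟩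
  have h4 : ∑ a ∈ F, ⨆ x : {x : ℝ≥0∞ // x < x₀}, c a * (x : ℝ≥0∞) ^ n a
      = ⨆ x : {x : ℝ≥0∞ // x < x₀}, ∑ a ∈ F, c a * (x : ℝ≥0∞) ^ n a := by
    refine ENNReal.finsetSum_iSup fun i j => ?_
    rcases le_total (i : ℝ≥0∞) j with hij | hij
    · exact ⟨j, fun a => ⟨by gcongr, le_rfl⟩⟩
    · exact ⟨i, fun a => ⟨le_rfl, by gcongr⟩⟩
  rw [h4] at h3
  exact absurd (h3.trans (iSup_le fun x => h1 x x.2)) (not_le.2 hcon)

theorem gw_eq (x : ℝ≥0∞) (S : Set Wd) :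
    gw x S = ∑' w : S, (1 : ℝ≥0∞) * x ^ (w : Wd).length := by
  simp [gw]

end Pool.Agent.MG
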