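import Pool.Agent.Lib_helper74.MG.Cuts

/-!
# Mass gap of pairs of strands, VI: the block recursion (helper74)
-/

set_option autoImplicit false

namespace Pool.Agent.MG

open Pool.Agent.Lib27 Pool.Agent.SapR
open scoped ENNReal

/-! ### depth -/

/-- depth of the lowest vertex -/
def dip (w : Wd) : ℕ := (vt 0 w).toFinset.sup (fun p => (-lev p).toNat)

theorem dip_le {w : Wd} {p : ℤ × ℤ} (hp : p ∈ vt 0 w) : -(dip w : ℤ) ≤ lev p := by
  have h1 : (-lev p).toNat ≤ dip w :=
    Finset.le_sup (f := fun p => (-lev p).toNat) (List.mem_toFinset.2 hp)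
  omega

theorem dip_mem (w : Wd) : ∃ p ∈ vt 0 w, lev p = -(dip w : ℤ) := by
  have hne : (vt 0 w).toFinset.Nonempty := ⟨0, List.mem_toFinset.2 (mem_vt_self 0 w)⟩
  obtain ⟨p, hp, hd⟩ := Finset.exists_mem_eq_sup _ hne (fun p => (-lev p).toNat)
  have hd' : dip w = (-lev p).toNat := hd
  rcases Nat.eq_zero_or_pos (dip w) with h0 | h0
  · exact ⟨0, mem_vt_self 0 w, by rw [h0]; simp⟩
  · exact ⟨p, List.mem_toFinset.1 hp, by omega⟩

/-- number of blocks which may be reached by a dip -/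
def cc (K : ℕ) (w : Wd) : ℕ := (dip w + 2 * K) / (3 * K)

theorem dip_lt_cc {K : ℕ} (hK : 0 < K) (w : Wd) : dip w < 3 * K * cc K w + K := by
  have h1 : dip w + 2 * K < 3 * K * (cc K w + 1) := by
    unfold cc
    exact Nat.lt_mul_div_succ _ (by omega)
  have h2 : 3 * K * (cc K w + 1) = 3 * K * cc K w + 3 * K := by ring
  omega

theorem cc_mul_le (K : ℕ) (w : Wd) : 3 * K * cc K w ≤ dip w + 2 * K := by
  unfold cc
  exact Nat.mul_div_le _ _

theorem cc_pos_dip {K : ℕ} {w : Wd} (h : 0 < cc K w) : K ≤ dip w := by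
  have h1 := cc_mul_le K w
  have h2 : 3 * K * 1 ≤ 3 * K * cc K w := Nat.mul_le_mul_left _ h
  omega

/-! ### splitting of first passage words -/

theorem Fp_cut {H M : ℕ} {w : Wd} (hw : w ∈ Fp (H + M)) :
    ∃ v s, v ∈ Fp H ∧ s ∈ Fp M ∧ w = v ++ s := by
  have hw2 := hw.2.1
  obtain ⟨v, s, rfl, h1, h2⟩ := first_visit (w := w) (h := H) (by positivity)
    ⟨ep 0 w, ep_mem_vt _ _, by rw [hw2]; push_cast; omega⟩
  refine ⟨v, s, ⟨SAWs_left hw.1, h1, h2⟩, ⟨SAWs_right hw.1, ?_, ?_⟩, rfl⟩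
  · rw [lev_ep_append] at hw2
    push_cast at hw2
    omega
  · intro p hp
    have h3 := hw.2.2 _ (mem_vs_append_right v hp)
    rw [lev_add] at h3
    push_cast at h3
    omega

theorem Fp_zero {w : Wd} (hw : w ∈ Fp 0) : w = [] := by
  by_contra h1
  have := hw.2.2 0 (by rw [vs_eq_cons w 0 h1]; exact List.mem_cons_self ..)
  simp at this

/-! ### bad pairs -/

/-- no common cut in the middle third of the blocks of the pair, except for the top `r` blocks -/
def Bad (K k r : ℕ) : Set (Wd × Wd) :=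
  {p | p.1 ∈ Fp (k * (3 * K)) ∧ p.2 ∈ Fp (k * (3 * K)) ∧
    ∀ j : ℕ, j + r < k → ∀ l : ℤ, ((j * (3 * K) + K : ℕ) : ℤ) < l →
      l < ((j * (3 * K) + 2 * K : ℕ) : ℤ) → ¬ CC p.1 p.2 l}

/-- no common cut in the middle third of a block -/
def SB (K : ℕ) (p : Wd × Wd) : Prop :=
  ∀ l : ℤ, (K : ℤ) < l → l < ((2 * K : ℕ) : ℤ) → ¬ CC p.1 p.2 l

/-- pairs of first passage words -/
def Fpp (H : ℕ) : Set (Wd × Wd) := Fp H ×ˢ Fp H

open Classical in
/-- weight of a block -/
noncomputable def thw (x Y : ℝ≥0∞) (K : ℕ) (p : Wd × Wd) : ℝ≥0∞ :=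
  x ^ (p.1.length + p.2.length) * (Y ^ (cc K p.1 + cc K p.2) * (if SB K p then 1 else Y⁻¹))

/-- total weight of a block -/
noncomputable def theta (x Y : ℝ≥0∞) (K : ℕ) : ℝ≥0∞ := ∑' p : Fpp (3 * K), thw x Y K p

/-- sums over concatenations, the first factor in a class which depends on the second -/
theorem gp_dep (x : ℝ≥0∞) {T A : Set (Wd × Wd)} (B : Wd × Wd → Set (Wd × Wd))
    (h : ∀ p ∈ T, ∃ q v, q ∈ A ∧ v ∈ B q ∧ p = (v.1 ++ q.1, v.2 ++ q.2)) :
    gp x T ≤ ∑' q : A, x ^ ((q : Wd × Wd).1.length + (q : Wd × Wd).2.length) * gp x (B q) := by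
  choose! q v hq hv he using h
  have h1 : ∑' q : A, x ^ ((q : Wd × Wd).1.length + (q : Wd × Wd).2.length) * gp x (B q) =
      ∑' t : (Wd × Wd) × (Wd × Wd), A.indicator (fun p => x ^ (p.1.length + p.2.length)) t.1 *
        (B t.1).indicator (fun p => x ^ (p.1.length + p.2.length)) t.2 := by
    refine Eq.trans ?_ (ENNReal.tsum_prod (f := fun (a b : Wd × Wd) =>
      A.indicator (fun p => x ^ (p.1.length + p.2.length)) a *
        (B a).indicator (fun p => x ^ (p.1.length + p.2.length)) b)).symm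
    have h2 := tsum_subtype A (fun q : Wd × Wd => x ^ (q.1.length + q.2.length) * gp x (B q))
    rw [h2]
    congr 1
    funext a
    rw [ENNReal.tsum_mul_left, ← gp_indicator]
    by_cases ha : a ∈ A
    · rw [Set.indicator_of_mem ha, Set.indicator_of_mem ha]
    · rw [Set.indicator_of_notMem ha, Set.indicator_of_notMem ha, zero_mul]
  rw [h1]
  refine tsum_le_of_inj' (S := T) (fun p : Wd × Wd => x ^ (p.1.length + p.2.length)) _
    (fun p => (q p, v p)) ?_ ?_
  · intro p hp p' hp' heq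
    have e1 : q p = q p' := congrArg Prod.fst heq
    have e2 : v p = v p' := congrArg Prod.snd heq
    rw [he p hp, he p' hp', e1, e2]
  · intro p hp
    simp only
    rw [Set.indicator_of_mem (hq p hp), Set.indicator_of_mem (hv p hp), ← pow_add]
    conv_lhs => rw [he p hp]
    refine le_of_eq ?_
    congr 1
    simp only [List.length_append]
    ring

/-- visits below a junction which is not undercut -/
theorem CC_below {H : ℕ} {v v' s s' : Wd} (hv : v ∈ Fp H) (hv' : v' ∈ Fp H) {l : ℤ}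
    (h1 : l < H) (h2 : l + dip s < H) (h3 : l + dip s' < H) :
    CC (v ++ s) (v' ++ s') l ↔ CC v v' l := by
  unfold CC
  rw [cnt_below hv h1 fun p hp => by have := dip_le hp; omega,
    cnt_below hv' h1 fun p hp => by have := dip_le hp; omega]

theorem CC_above {H : ℕ} {v v' : Wd} (s s' : Wd) (hv : v ∈ Fp H) (hv' : v' ∈ Fp H) {l : ℤ}
    (h1 : (H : ℤ) ≤ l) : CC (v ++ s) (v' ++ s') l ↔ CC s s' (l - H) := by
  unfold CC
  rw [cnt_above s hv h1, cnt_above s' hv' h1]

/-- the lower part of a pair without common cuts in the middle thirds -/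
theorem bad_of_cut {K k r : ℕ} (hK : 0 < K) {v v' s s' : Wd} (hv : v ∈ Fp (k * (3 * K)))
    (hv' : v' ∈ Fp (k * (3 * K)))
    (h : ∀ j : ℕ, j + r < k → ∀ l : ℤ, ((j * (3 * K) + K : ℕ) : ℤ) < l →
      l < ((j * (3 * K) + 2 * K : ℕ) : ℤ) → ¬ CC (v ++ s) (v' ++ s') l) :
    (v, v') ∈ Bad K k (max r (max (cc K s) (cc K s'))) := by
  refine ⟨hv, hv', ?_⟩
  intro j hj l hl1 hl2 hcc
  have hr : j + r < k := lt_of_le_of_lt (by gcongr; exact le_max_left _ _) hj
  have hc1 : j + cc K s < k := lt_of_le_of_lt (by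
    gcongr; exact (le_max_left _ _).trans (le_max_right _ _)) hj
  have hc2 : j + cc K s' < k := lt_of_le_of_lt (by
    gcongr; exact (le_max_right _ _).trans (le_max_right _ _)) hj
  have key : ∀ w : Wd, j + cc K w < k → l + dip w < ((k * (3 * K) : ℕ) : ℤ) := by
    intro w hw
    have h1 := dip_lt_cc hK w
    have h2 : (j + cc K w + 1) * (3 * K) ≤ k * (3 * K) := Nat.mul_le_mul_right _ hw
    have h3 : (j + cc K w + 1) * (3 * K) = j * (3 * K) + 3 * K * cc K w + 3 * K := by ring
    have h4 : ((j * (3 * K) + 2 * K : ℕ) : ℤ) + dip w < ((k * (3 * K) : ℕ) : ℤ) := by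
      have : j * (3 * K) + 2 * K + dip w < k * (3 * K) := by omega
      exact_mod_cast this
    omega
  have h1 : l < ((k * (3 * K) : ℕ) : ℤ) := by
    have := key s hc1
    omega
  exact h j hr l hl1 hl2 ((CC_below hv hv' h1 (key s hc1) (key s' hc2)).2 hcc)

/-- the block recursion -/
theorem gp_Bad_le {x Y : ℝ≥0∞} (hY : 1 ≤ Y) (hYt : Y ≠ ∞) {K : ℕ} (hK : 0 < K) (k : ℕ) :
    ∀ r, gp x (Bad K k r) ≤ Y ^ r * theta x Y K ^ k := by
  classical
  have hY0 : Y ≠ 0 := (zero_lt_one.trans_le hY).ne'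
  induction k with
  | zero =>
    intro r
    have h1 : gp x (Bad K 0 r) ≤ gp x ({([] : Wd)} ×ˢ {([] : Wd)}) := by
      apply gp_mono
      rintro ⟨a, b⟩ ⟨ha, hb, -⟩
      rw [zero_mul] at ha hb
      exact ⟨Fp_zero ha, Fp_zero hb⟩
    rw [gp_prod, gw_singleton] at h1
    simp only [List.length_nil, pow_zero, mul_one] at h1 ⊢
    exact h1.trans (one_le_pow₀ hY)
  | succ k ih =>
    intro r
    set A : Set (Wd × Wd) := {q | q ∈ Fpp (3 * K) ∧ (1 ≤ r ∨ SB K q)} with hA
    have h1 : gp x (Bad K (k + 1) r) ≤ ∑' q : A,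
        x ^ ((q : Wd × Wd).1.length + (q : Wd × Wd).2.length) *
          gp x (Bad K k (max (r - 1) (max (cc K (q : Wd × Wd).1) (cc K (q : Wd × Wd).2)))) := by
      apply gp_dep (B := fun q => Bad K k (max (r - 1) (max (cc K q.1) (cc K q.2))))
      rintro ⟨a, b⟩ ⟨ha, hb, hno⟩
      simp only at ha hb hno
      rw [Nat.succ_mul] at ha hb
      obtain ⟨v, s, hv, hs, rfl⟩ := Fp_cut ha
      obtain ⟨v', s', hv', hs', rfl⟩ := Fp_cut hb
      refine ⟨(s, s'), (v, v'), ⟨⟨hs, hs'⟩, ?_⟩, ?_, rfl⟩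
      · rcases Nat.eq_zero_or_pos r with rfl | hr
        · right
          intro l hl1 hl2 hcc
          refine hno k (by omega) (l + ((k * (3 * K) : ℕ) : ℤ)) (by push_cast; omega)
            (by push_cast; push_cast at hl2; omega) ?_
          rw [CC_above s s' hv hv' (by omega), add_sub_cancel_right]
          exact hcc
        · exact Or.inl hr
      · refine bad_of_cut hK hv hv' ?_
        intro j hj l hl1 hl2
        exact hno j (by omega) l hl1 hl2
    refine h1.trans ?_
    have h2 : ∀ q : A, x ^ ((q : Wd × Wd).1.length + (q : Wd × Wd).2.length) *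
          gp x (Bad K k (max (r - 1) (max (cc K (q : Wd × Wd).1) (cc K (q : Wd × Wd).2)))) ≤
        Y ^ r * theta x Y K ^ k * thw x Y K q := by
      rintro ⟨q, hq⟩
      simp only
      obtain ⟨c, hc⟩ : ∃ c, c = cc K q.1 + cc K q.2 := ⟨_, rfl⟩
      have hmax : max (cc K q.1) (cc K q.2) ≤ c := by rw [hc]; omega
      have h3 : Y ^ (max (r - 1) (max (cc K q.1) (cc K q.2))) ≤
          Y ^ r * (Y ^ c * (if SB K q then 1 else Y⁻¹)) := by
        by_cases hsb : SB K q
        · rw [if_pos hsb, mul_one, ← pow_add]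
          exact pow_le_pow_right₀ hY (max_le (by omega) (by omega))
        · rw [if_neg hsb]
          have hr : 1 ≤ r := by
            rcases hq.2 with h | h
            · exact h
            · exact absurd h hsb
          obtain ⟨r', rfl⟩ : ∃ r', r = r' + 1 := ⟨r - 1, by omega⟩
          have h4 : Y ^ (r' + 1) * (Y ^ c * Y⁻¹) = Y ^ (r' + c) := by
            rw [pow_succ, pow_add Y r' c]
            calc Y ^ r' * Y * (Y ^ c * Y⁻¹) = Y ^ r' * Y ^ c * (Y * Y⁻¹) := by ring
              _ = _ := by rw [ENNReal.mul_inv_cancel hY0 hYt, mul_one]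
          rw [h4]
          exact pow_le_pow_right₀ hY (max_le (by omega) (by omega))
      calc x ^ (q.1.length + q.2.length) *
            gp x (Bad K k (max (r - 1) (max (cc K q.1) (cc K q.2))))
          ≤ x ^ (q.1.length + q.2.length) *
            (Y ^ (max (r - 1) (max (cc K q.1) (cc K q.2))) * theta x Y K ^ k) :=
            mul_le_mul_right (ih _) _
        _ ≤ x ^ (q.1.length + q.2.length) *
            (Y ^ r * (Y ^ c * (if SB K q then 1 else Y⁻¹)) * theta x Y K ^ k) :=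
            mul_le_mul_right (mul_le_mul_left h3 _) _
        _ = _ := by rw [hc]; unfold thw; ring
    calc _ ≤ ∑' q : A, Y ^ r * theta x Y K ^ k * thw x Y K q := ENNReal.tsum_le_tsum h2
      _ = Y ^ r * theta x Y K ^ k * ∑' q : A, thw x Y K q := ENNReal.tsum_mul_left
      _ ≤ Y ^ r * theta x Y K ^ k * theta x Y K := by
          refine mul_le_mul_right ?_ _
          exact tsum_le_of_inj (thw x Y K) (thw x Y K) (fun q => q) (fun q hq => hq.1)
            (Set.injOn_id _) fun _ _ => le_rfl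
      _ = _ := by rw [pow_succ]; ring

end Pool.Agent.MG
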