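import Pool.Agent.Lib_helper74.MG.Est

/-!
# Mass gap of pairs of strands, VIII: the weight of a block at the critical point (helper74)
-/

set_option autoImplicit false

namespace Pool.Agent.MG

open Pool.Agent.Lib27 Pool.Agent.SapR
open scoped ENNReal

/-! ### words by depth -/

theorem gw_dip_le (x : ℝ≥0∞) (M d : ℕ) :
    gw x {s | s ∈ Tp M ∧ dip s = d} ≤ chi x ^ 4 * (gw x (Bri d) * gw x (Bri (M + d))) := by
  calc gw x {s | s ∈ Tp M ∧ dip s = d} ≤ gw x (Dn d) * gw x (Tp (M + d)) := by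
        apply gw_split2
        rintro w ⟨hw, hd⟩
        obtain ⟨p, hp, hp2⟩ := dip_mem w
        obtain ⟨u, v, rfl, h1, -⟩ := split_first (fun v => lev v = -(dip w : ℤ)) w 0 ⟨p, hp, hp2⟩
        have h1 : lev (ep 0 u) = -(dip (u ++ v) : ℤ) := h1
        rw [hd] at h1
        refine ⟨u, v, ⟨SAWs_left hw.1, h1⟩, ⟨SAWs_right hw.1, ?_⟩, rfl⟩
        have h2 := hw.2
        rw [lev_ep_append] at h2
        push_cast
        omega
    _ ≤ (chi x ^ 2 * gw x (Bri d)) * (chi x ^ 2 * gw x (Bri (M + d))) := by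
        gcongr
        · exact gw_Dn_le x d
        · exact gw_Tp_le x (M + d)
    _ = _ := by ring

theorem tsum_dip_le (x : ℝ≥0∞) (f : ℕ → ℝ≥0∞) (M D : ℕ) :
    ∑' s : {s | s ∈ Tp M ∧ D ≤ dip s}, x ^ (s : Wd).length * f (dip (s : Wd)) ≤
      ∑' d : ℕ, chi x ^ 4 * (gw x (Bri (d + D)) * gw x (Bri (M + (d + D)))) * f (d + D) := by
  have h1 : ∑' s : {s | s ∈ Tp M ∧ D ≤ dip s}, x ^ (s : Wd).length * f (dip (s : Wd)) ≤
      ∑' s : (⋃ d : ℕ, {s | s ∈ Tp M ∧ dip s = d + D} : Set Wd),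
        x ^ (s : Wd).length * f (dip (s : Wd)) := by
    refine tsum_le_of_inj (fun s : Wd => x ^ s.length * f (dip s))
      (fun s : Wd => x ^ s.length * f (dip s)) (fun s => s) ?_ (Set.injOn_id _)
      fun _ _ => le_rfl
    rintro s ⟨hs, hd⟩
    exact Set.mem_iUnion.2 ⟨dip s - D, hs, by omega⟩
  refine h1.trans ((ENNReal.tsum_iUnion_le_tsum (fun s : Wd => x ^ s.length * f (dip s)) _).trans ?_)
  refine ENNReal.tsum_le_tsum fun d => ?_
  have h2 : ∑' s : {s | s ∈ Tp M ∧ dip s = d + D}, x ^ (s : Wd).length * f (dip (s : Wd)) =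
      gw x {s | s ∈ Tp M ∧ dip s = d + D} * f (d + D) := by
    unfold gw
    rw [← ENNReal.tsum_mul_right]
    congr 1
    funext s
    rw [s.2.2]
  exact h2.le.trans (mul_le_mul_left (gw_dip_le x M (d + D)) _)

/-- small error -/
noncomputable def eps (x Q : ℝ≥0∞) (K : ℕ) : ℝ≥0∞ := chi x ^ 4 * Q ^ K * (1 - Q)⁻¹

theorem Fplus_le {x Q Y : ℝ≥0∞} (h : CrE x Q) {K : ℕ} (M : ℕ) (hYK : Y ≤ Q⁻¹ ^ K) :
    ∑' s : {s | s ∈ Tp M ∧ K ≤ dip s}, x ^ (s : Wd).length * Y ^ cc K (s : Wd) ≤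
      Q ^ M * eps x Q K := by
  have hQ0 := h.q_pos
  have hQt := h.q_top
  have hQi : 1 ≤ Q⁻¹ := ENNReal.one_le_inv.2 h.q_lt.le
  calc ∑' s : {s | s ∈ Tp M ∧ K ≤ dip s}, x ^ (s : Wd).length * Y ^ cc K (s : Wd)
      ≤ ∑' s : {s | s ∈ Tp M ∧ K ≤ dip s}, x ^ (s : Wd).length * Q⁻¹ ^ dip (s : Wd) := by
        refine ENNReal.tsum_le_tsum fun s => mul_le_mul_right ?_ _
        calc Y ^ cc K (s : Wd) ≤ (Q⁻¹ ^ K) ^ cc K (s : Wd) := by gcongr
          _ = Q⁻¹ ^ (K * cc K (s : Wd)) := by rw [← pow_mul]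
          _ ≤ _ := by
            refine pow_le_pow_right₀ hQi ?_
            have h1 := cc_mul_le K (s : Wd)
            have h2 : K ≤ dip (s : Wd) := s.2.2
            have h3 : 3 * K * cc K (s : Wd) = 3 * (K * cc K (s : Wd)) := by ring
            omega
    _ ≤ ∑' d : ℕ, chi x ^ 4 * (gw x (Bri (d + K)) * gw x (Bri (M + (d + K)))) * Q⁻¹ ^ (d + K) :=
        tsum_dip_le x (fun d => Q⁻¹ ^ d) M K
    _ ≤ ∑' d : ℕ, chi x ^ 4 * Q ^ M * Q ^ K * Q ^ d := by
        refine ENNReal.tsum_le_tsum fun d => ?_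
        calc _ ≤ chi x ^ 4 * (Q ^ (d + K) * Q ^ (M + (d + K))) * Q⁻¹ ^ (d + K) := by
              gcongr
              · exact h.upper _
              · exact h.upper _
          _ = chi x ^ 4 * Q ^ (M + (d + K)) * (Q ^ (d + K) * Q⁻¹ ^ (d + K)) := by ring
          _ = _ := by rw [pow_mul_inv_pow hQ0 hQt, mul_one, pow_add, pow_add]; ring
    _ = _ := by rw [ENNReal.tsum_mul_left, ENNReal.tsum_geometric, eps]; ring

theorem Fall_le {x Q Y : ℝ≥0∞} (h : CrE x Q) {K : ℕ} (M : ℕ) (hYK : Y ≤ Q⁻¹ ^ K) :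
    ∑' s : Fp M, x ^ (s : Wd).length * Y ^ cc K (s : Wd) ≤ Q ^ M * (chi x + eps x Q K) := by
  have h1 : ∑' s : Fp M, x ^ (s : Wd).length * Y ^ cc K (s : Wd) ≤
      ∑' s : ({s | s ∈ Fp M ∧ dip s < K} ∪ {s | s ∈ Tp M ∧ K ≤ dip s} : Set Wd),
        x ^ (s : Wd).length * Y ^ cc K (s : Wd) := by
    refine tsum_le_of_inj (fun s : Wd => x ^ s.length * Y ^ cc K s)
      (fun s : Wd => x ^ s.length * Y ^ cc K s) (fun s => s) ?_ (Set.injOn_id _)
      fun _ _ => le_rfl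
    intro s hs
    rcases lt_or_ge (dip s) K with hd | hd
    · exact Or.inl ⟨hs, hd⟩
    · exact Or.inr ⟨Fp_sub_Tp M hs, hd⟩
  refine (h1.trans (ENNReal.tsum_union_le (fun s : Wd => x ^ s.length * Y ^ cc K s) _ _)).trans ?_
  rw [mul_add]
  refine add_le_add ?_ (Fplus_le h M hYK)
  calc ∑' s : {s | s ∈ Fp M ∧ dip s < K}, x ^ (s : Wd).length * Y ^ cc K (s : Wd)
      ≤ gw x (Fp M) := by
        refine tsum_le_of_inj (fun s : Wd => x ^ s.length * Y ^ cc K s)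
          (fun s : Wd => x ^ s.length) (fun s => s) (fun s hs => hs.1) (Set.injOn_id _) ?_
        intro s hs
        have : cc K s = 0 := by
          by_contra hc
          have := cc_pos_dip (Nat.pos_of_ne_zero hc)
          have := hs.2
          omega
        simp only [this, pow_zero, mul_one]
        exact le_rfl
    _ ≤ chi x * gw x (Bri M) := gw_Fp_le x M
    _ ≤ chi x * Q ^ M := mul_le_mul_right (h.upper M) _
    _ = _ := mul_comm _ _

/-! ### loops rising high -/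

/-- first passage words whose initial loop rises to level `K` -/
def Ri (K : ℕ) : Set Wd :=
  {s | ∃ a b, SAWs s ∧ b ∈ Bri (3 * K) ∧ s = a ++ b ∧ lev (ep 0 a) = 0 ∧
    ∃ p ∈ vt 0 a, (K : ℤ) ≤ lev p}

theorem gw_Ri_le {x Q : ℝ≥0∞} (h : CrE x Q) (K : ℕ) :
    gw x (Ri K) ≤ chi x ^ 3 * Q ^ (2 * K) * Q ^ (3 * K) := by
  calc gw x (Ri K) ≤ gw x (Fp K) * gw x (Dn K) * gw x (Bri (3 * K)) := by
        apply gw_split3
        rintro s ⟨a, b, hs, hb, rfl, ha, hp⟩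
        obtain ⟨u, v, rfl, h1, h2⟩ := first_visit (by positivity) hp
        have hs1 := SAWs_left hs
        refine ⟨u, v, b, ⟨SAWs_left hs1, h1, h2⟩, ⟨SAWs_right hs1, ?_⟩, hb, rfl⟩
        rw [lev_ep_append] at ha
        omega
    _ ≤ (chi x * gw x (Bri K)) * (chi x ^ 2 * gw x (Bri K)) * gw x (Bri (3 * K)) := by
        gcongr
        · exact gw_Fp_le x K
        · exact gw_Dn_le x K
    _ ≤ (chi x * Q ^ K) * (chi x ^ 2 * Q ^ K) * Q ^ (3 * K) := by
        gcongr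
        · exact h.upper _
        · exact h.upper _
        · exact h.upper _
    _ = _ := by rw [two_mul, pow_add Q K K]; ring

/-! ### pairs without common cut and with low loops -/

/-- pairs of first passage words with low loops and without common cut in the middle third -/
def Lo (K : ℕ) : Set (Wd × Wd) :=
  {p | p ∈ Fpp (3 * K) ∧ SB K p ∧ p.1 ∉ Ri K ∧ p.2 ∉ Ri K}

theorem cnt_low {K : ℕ} {a b : Wd} (ha : lev (ep 0 a) = 0) (hp : ∀ p ∈ vt 0 a, lev p < K)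
    {l : ℤ} (hl : (K : ℤ) < l) : cnt (vt 0 (a ++ b)) l = cnt (vt 0 b) l := by
  rw [cnt_vt_append, ha, sub_zero,
    (cnt_eq_zero (vs 0 a) _).2 (fun p hp' => by
      have := hp p (mem_vt_iff.2 (Or.inl hp')); omega), zero_add]

theorem gp_Lo_le (x : ℝ≥0∞) (K : ℕ) :
    gp x (Lo K) ≤ chi x ^ 2 * gp x (Nc K (2 * K) (3 * K)) := by
  calc gp x (Lo K) ≤ gp x (SW ×ˢ SW) * gp x (Nc K (2 * K) (3 * K)) *
        gp x ({([] : Wd)} ×ˢ {([] : Wd)}) := by
        apply gp_split3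
        rintro ⟨s, s'⟩ ⟨⟨hs, hs'⟩, hsb, hr, hr'⟩
        simp only at hs hs' hsb hr hr'
        obtain ⟨a, b, ha, hb, rfl, hla⟩ := Fp_split hs
        obtain ⟨a', b', ha', hb', rfl, hla'⟩ := Fp_split hs'
        refine ⟨(a, a'), (b, b'), ([], []), ⟨ha, ha'⟩, ⟨⟨hb, hb'⟩, ?_⟩, ⟨rfl, rfl⟩, by simp⟩
        intro k hk1 hk2 hcc
        have hp : ∀ p ∈ vt 0 a, lev p < K := by
          intro p hp
          by_contra hcon
          exact hr ⟨a, b, hs.1, hb, rfl, hla, p, hp, not_lt.1 hcon⟩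
        have hp' : ∀ p ∈ vt 0 a', lev p < K := by
          intro p hp
          by_contra hcon
          exact hr' ⟨a', b', hs'.1, hb', rfl, hla', p, hp, not_lt.1 hcon⟩
        refine hsb k hk1 hk2 ?_
        unfold CC
        simp only
        rw [cnt_low hla hp hk1, cnt_low hla' hp' hk1]
        exact hcc
    _ = _ := by
        rw [gp_prod, gp_prod, gw_singleton]
        simp only [List.length_nil, pow_zero, mul_one]
        rw [sq]
        rfl

/-! ### the weight of a block -/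

theorem tsum_prod_set (A B : Set Wd) (f g : Wd → ℝ≥0∞) :
    ∑' p : Wd × Wd, (A ×ˢ B : Set (Wd × Wd)).indicator (fun p => f p.1 * g p.2) p =
      (∑' a : A, f a) * ∑' b : B, g b := by
  rw [tsum_subtype A f, tsum_subtype B g]
  have h1 : ∀ p : Wd × Wd, (A ×ˢ B : Set (Wd × Wd)).indicator (fun p => f p.1 * g p.2) p =
      (fun (a b : Wd) => A.indicator f a * B.indicator g b) p.1 p.2 := by
    rintro ⟨a, b⟩
    by_cases ha : a ∈ A
    · by_cases hb : b ∈ B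
      · rw [Set.indicator_of_mem (show (a, b) ∈ A ×ˢ B from ⟨ha, hb⟩)]
        simp only [Set.indicator_of_mem ha, Set.indicator_of_mem hb]
      · rw [Set.indicator_of_notMem (fun h : (a, b) ∈ A ×ˢ B => hb h.2)]
        simp only [Set.indicator_of_notMem hb, mul_zero]
    · rw [Set.indicator_of_notMem (fun h : (a, b) ∈ A ×ˢ B => ha h.1)]
      simp only [Set.indicator_of_notMem ha, zero_mul]
  calc ∑' p : Wd × Wd, (A ×ˢ B : Set (Wd × Wd)).indicator (fun p => f p.1 * g p.2) p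
      = ∑' p : Wd × Wd, (fun (a b : Wd) => A.indicator f a * B.indicator g b) p.1 p.2 := by
        congr 1; funext p; exact h1 p
    _ = ∑' a, ∑' b, A.indicator f a * B.indicator g b :=
        ENNReal.tsum_prod (f := fun (a b : Wd) => A.indicator f a * B.indicator g b)
    _ = _ := by
        rw [← ENNReal.tsum_mul_right]
        congr 1
        funext a
        rw [ENNReal.tsum_mul_left]

/-- deep words -/
def Dp (K : ℕ) : Set Wd := {s | s ∈ Tp (3 * K) ∧ K ≤ dip s}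

/-- majorant of the weight of a block -/
noncomputable def thB (x Y : ℝ≥0∞) (K : ℕ) (p : Wd × Wd) : ℝ≥0∞ :=
  (Dp K ×ˢ Fp (3 * K)).indicator
    (fun p => (x ^ p.1.length * Y ^ cc K p.1) * (x ^ p.2.length * Y ^ cc K p.2)) p +
  ((Fp (3 * K) ×ˢ Dp K).indicator
    (fun p => (x ^ p.1.length * Y ^ cc K p.1) * (x ^ p.2.length * Y ^ cc K p.2)) p +
  ((Fpp (3 * K)).indicator (fun p => x ^ (p.1.length + p.2.length)) p * Y⁻¹ +
  ((Ri K ×ˢ Fp (3 * K)).indicator (fun p => x ^ (p.1.length + p.2.length)) p +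
  ((Fp (3 * K) ×ˢ Ri K).indicator (fun p => x ^ (p.1.length + p.2.length)) p +
  (Lo K).indicator (fun p => x ^ (p.1.length + p.2.length)) p))))

theorem thw_le {x Y : ℝ≥0∞} (hY : 1 ≤ Y) {K : ℕ} {p : Wd × Wd}
    (hp : p ∈ Fpp (3 * K)) : thw x Y K p ≤ thB x Y K p := by
  classical
  unfold thB
  obtain ⟨hp1, hp2⟩ := hp
  have hYi : Y⁻¹ ≤ 1 := ENNReal.inv_le_one.2 hY
  have hif : (if SB K p then 1 else Y⁻¹) ≤ (1 : ℝ≥0∞) := by
    split_ifs
    · exact le_rfl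
    · exact hYi
  rcases le_or_gt K (dip p.1) with h1 | h1
  · refine le_trans ?_ le_self_add
    rw [Set.indicator_of_mem (show p ∈ Dp K ×ˢ Fp (3 * K) from ⟨⟨Fp_sub_Tp _ hp1, h1⟩, hp2⟩)]
    unfold thw
    calc _ ≤ x ^ (p.1.length + p.2.length) * (Y ^ (cc K p.1 + cc K p.2) * 1) := by gcongr
      _ = _ := by rw [pow_add, pow_add]; ring
  refine le_trans ?_ le_add_self
  rcases le_or_gt K (dip p.2) with h2 | h2
  · refine le_trans ?_ le_self_add
    rw [Set.indicator_of_mem (show p ∈ Fp (3 * K) ×ˢ Dp K from ⟨hp1, ⟨Fp_sub_Tp _ hp2, h2⟩⟩)]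
    unfold thw
    calc _ ≤ x ^ (p.1.length + p.2.length) * (Y ^ (cc K p.1 + cc K p.2) * 1) := by gcongr
      _ = _ := by rw [pow_add, pow_add]; ring
  refine le_trans ?_ le_add_self
  have hc : ∀ w : Wd, dip w < K → cc K w = 0 := by
    intro w hw
    by_contra hc
    have := cc_pos_dip (Nat.pos_of_ne_zero hc)
    omega
  have hth : thw x Y K p = x ^ (p.1.length + p.2.length) * (if SB K p then 1 else Y⁻¹) := by
    unfold thw
    rw [hc _ h1, hc _ h2, add_zero, pow_zero, one_mul]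
  rw [hth]
  by_cases hsb : SB K p
  · rw [if_pos hsb, mul_one]
    refine le_trans ?_ le_add_self
    by_cases hr : p.1 ∈ Ri K
    · refine le_trans ?_ le_self_add
      rw [Set.indicator_of_mem (show p ∈ Ri K ×ˢ Fp (3 * K) from ⟨hr, hp2⟩)]
    refine le_trans ?_ le_add_self
    by_cases hr' : p.2 ∈ Ri K
    · refine le_trans ?_ le_self_add
      rw [Set.indicator_of_mem (show p ∈ Fp (3 * K) ×ˢ Ri K from ⟨hp1, hr'⟩)]
    refine le_trans ?_ le_add_self
    rw [Set.indicator_of_mem (show p ∈ Lo K from ⟨⟨hp1, hp2⟩, hsb, hr, hr'⟩)]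
  · rw [if_neg hsb]
    refine le_trans ?_ le_self_add
    rw [Set.indicator_of_mem (show p ∈ Fpp (3 * K) from ⟨hp1, hp2⟩)]

theorem theta_le {x Q Y : ℝ≥0∞} (h : CrE x Q) {K : ℕ} (hK : 0 < K) (hY : 1 ≤ Y)
    (hYK : Y ≤ Q⁻¹ ^ K) :
    theta x Y K ≤ Q ^ (6 * K) * (2 * (eps x Q K * (chi x + eps x Q K)) + chi x ^ 2 * Y⁻¹ +
      2 * chi x ^ 4 * Q ^ (2 * K) +
      chi x ^ 2 * (2 * ∑' k : ℕ, ((k + K : ℕ) : ℝ≥0∞) * nn x Q (k + K))) := by
  have e6 : Q ^ (6 * K) = Q ^ (3 * K) * Q ^ (3 * K) := by rw [← pow_add]; congr 1; ring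
  have hFp : gw x (Fp (3 * K)) ≤ chi x * Q ^ (3 * K) :=
    (gw_Fp_le x _).trans (mul_le_mul_right (h.upper _) _)
  have h0 : theta x Y K = ∑' p : Wd × Wd, (Fpp (3 * K)).indicator (thw x Y K) p :=
    tsum_subtype (Fpp (3 * K)) (thw x Y K)
  rw [h0]
  have h00 : ∀ p, (Fpp (3 * K)).indicator (thw x Y K) p ≤ thB x Y K p := fun p =>
    Set.indicator_apply_le fun hp => thw_le hY hp
  refine (ENNReal.tsum_le_tsum h00).trans ?_
  unfold thB
  rw [ENNReal.tsum_add, ENNReal.tsum_add, ENNReal.tsum_add, ENNReal.tsum_add, ENNReal.tsum_add,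
    ENNReal.tsum_mul_right, ← gp_indicator, ← gp_indicator, ← gp_indicator, ← gp_indicator,
    tsum_prod_set _ _ (fun s => x ^ s.length * Y ^ cc K s) (fun s => x ^ s.length * Y ^ cc K s),
    tsum_prod_set _ _ (fun s => x ^ s.length * Y ^ cc K s) (fun s => x ^ s.length * Y ^ cc K s)]
  have h1 := Fplus_le h (3 * K) hYK
  have h2 := Fall_le h (3 * K) hYK
  have b1 : (∑' s : Dp K, x ^ (s : Wd).length * Y ^ cc K (s : Wd)) *
      (∑' s : Fp (3 * K), x ^ (s : Wd).length * Y ^ cc K (s : Wd)) ≤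
      (Q ^ (3 * K) * eps x Q K) * (Q ^ (3 * K) * (chi x + eps x Q K)) := by gcongr; exact h1
  have b2 : (∑' s : Fp (3 * K), x ^ (s : Wd).length * Y ^ cc K (s : Wd)) *
      (∑' s : Dp K, x ^ (s : Wd).length * Y ^ cc K (s : Wd)) ≤
      (Q ^ (3 * K) * (chi x + eps x Q K)) * (Q ^ (3 * K) * eps x Q K) := by gcongr; exact h1
  have b3 : gp x (Fpp (3 * K)) ≤ (chi x * Q ^ (3 * K)) * (chi x * Q ^ (3 * K)) := by
    unfold Fpp
    rw [gp_prod]
    gcongr
  have b4 : gp x (Ri K ×ˢ Fp (3 * K)) ≤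
      (chi x ^ 3 * Q ^ (2 * K) * Q ^ (3 * K)) * (chi x * Q ^ (3 * K)) := by
    rw [gp_prod]
    gcongr
    exact gw_Ri_le h K
  have b5 : gp x (Fp (3 * K) ×ˢ Ri K) ≤
      (chi x * Q ^ (3 * K)) * (chi x ^ 3 * Q ^ (2 * K) * Q ^ (3 * K)) := by
    rw [gp_prod]
    gcongr
    exact gw_Ri_le h K
  have b6 : gp x (Lo K) ≤ chi x ^ 2 * (Q ^ (6 * K) *
      (2 * ∑' k : ℕ, ((k + K : ℕ) : ℝ≥0∞) * nn x Q (k + K))) :=
    (gp_Lo_le x K).trans (mul_le_mul_right (gp_Nc_le h K hK) _)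
  refine (add_le_add b1 (add_le_add b2 (add_le_add (mul_le_mul_left b3 _)
    (add_le_add b4 (add_le_add b5 b6))))).trans (le_of_eq ?_)
  rw [e6]
  ring

end Pool.Agent.MG
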