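import Pool.Agent.Lib_helper74.MG.Est2

/-!
# Mass gap of pairs of strands, IX: choice of the size of the blocks (helper74)
-/

set_option autoImplicit false

namespace Pool.Agent.MG

open Pool.Agent.Lib27 Pool.Agent.SapR Filter Topology
open scoped ENNReal

/-- the price of a loop -/
noncomputable def Yc (x : ℝ≥0∞) : ℝ≥0∞ := 4 * chi x ^ 2

theorem one_le_Yc (x : ℝ≥0∞) : 1 ≤ Yc x := by
  unfold Yc
  calc (1 : ℝ≥0∞) = 1 * 1 ^ 2 := by norm_num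
    _ ≤ 4 * chi x ^ 2 := by
      gcongr
      · norm_num
      · exact one_le_chi x

theorem Yc_ne_top {x : ℝ≥0∞} (h : chi x ≠ ∞) : Yc x ≠ ∞ := by
  unfold Yc
  exact ENNReal.mul_ne_top (by norm_num) (ENNReal.pow_ne_top h)

theorem pow_tendsto {Q : ℝ≥0∞} (h : Q < 1) : Tendsto (fun n : ℕ => Q ^ n) atTop (𝓝 0) :=
  ENNReal.tendsto_pow_atTop_nhds_zero_of_lt_one h

theorem eventually_le_inv_pow {Q Y : ℝ≥0∞} (h : Q < 1) (hY : Y ≠ ∞) :
    ∀ᶠ n : ℕ in atTop, Y ≤ Q⁻¹ ^ n := by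
  rcases eq_or_ne Y 0 with rfl | hY0
  · exact Eventually.of_forall fun _ => zero_le
  have h1 : ∀ᶠ n : ℕ in atTop, Q ^ n < Y⁻¹ :=
    (pow_tendsto h).eventually (gt_mem_nhds (ENNReal.inv_pos.2 hY))
  filter_upwards [h1] with n hn
  rw [← ENNReal.inv_pow]
  exact ENNReal.le_inv_iff_le_inv.1 hn.le

theorem exists_block {x Q Q₁ : ℝ≥0∞} (h : CrE x Q) (hQ₁ : Q₁ < 1) :
    ∃ K : ℕ, 0 < K ∧ Yc x ≤ Q₁⁻¹ ^ (3 * K) ∧ theta x (Yc x) K ≤ Q ^ (6 * K) * 2⁻¹ := by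
  have hc := h.chi_fin
  have hc0 : chi x ≠ 0 := (zero_lt_one.trans_le (one_le_chi x)).ne'
  have h1Q : (1 - Q)⁻¹ ≠ ∞ := ENNReal.inv_ne_top.2 (tsub_pos_of_lt h.q_lt).ne'
  have hY := Yc_ne_top hc
  have heps : Tendsto (fun K : ℕ => eps x Q K) atTop (𝓝 0) := by
    have h1 : Tendsto (fun K : ℕ => chi x ^ 4 * (1 - Q)⁻¹ * Q ^ K) atTop
        (𝓝 (chi x ^ 4 * (1 - Q)⁻¹ * 0)) :=
      ENNReal.Tendsto.const_mul (pow_tendsto h.q_lt)
        (Or.inr (ENNReal.mul_ne_top (ENNReal.pow_ne_top hc) h1Q))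
    rw [mul_zero] at h1
    refine h1.congr fun K => ?_
    unfold eps
    ring
  have hA : Tendsto (fun K : ℕ => 2 * (eps x Q K * (chi x + eps x Q K))) atTop (𝓝 0) := by
    have h1 : Tendsto (fun K : ℕ => chi x + eps x Q K) atTop (𝓝 (chi x + 0)) :=
      tendsto_const_nhds.add heps
    rw [add_zero] at h1
    have h2 : Tendsto (fun K : ℕ => eps x Q K * (chi x + eps x Q K)) atTop (𝓝 (0 * chi x)) :=
      ENNReal.Tendsto.mul heps (Or.inr hc) h1 (Or.inr ENNReal.zero_ne_top)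
    rw [zero_mul] at h2
    have h3 := ENNReal.Tendsto.const_mul (a := 2) h2 (Or.inr (by norm_num))
    rwa [mul_zero] at h3
  have hB : Tendsto (fun K : ℕ => 2 * chi x ^ 4 * Q ^ (2 * K)) atTop (𝓝 0) := by
    have h1 : Tendsto (fun K : ℕ => Q ^ (2 * K)) atTop (𝓝 0) :=
      (pow_tendsto h.q_lt).comp (tendsto_atTop_mono (fun n : ℕ => (by omega : n ≤ 2 * n)) tendsto_id)
    have h3 := ENNReal.Tendsto.const_mul (a := 2 * chi x ^ 4) h1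
      (Or.inr (ENNReal.mul_ne_top (by norm_num) (ENNReal.pow_ne_top hc)))
    rwa [mul_zero] at h3
  have hC : Tendsto (fun K : ℕ => chi x ^ 2 *
      (2 * ∑' k : ℕ, ((k + K : ℕ) : ℝ≥0∞) * nn x Q (k + K))) atTop (𝓝 0) := by
    have h1 : Tendsto (fun K : ℕ => ∑' k : ℕ, ((k + K : ℕ) : ℝ≥0∞) * nn x Q (k + K))
        atTop (𝓝 0) :=
      ENNReal.tendsto_sum_nat_add (fun l : ℕ => (l : ℝ≥0∞) * nn x Q l)
        (ne_top_of_le_ne_top (ENNReal.pow_ne_top hc) (mean_tsum_le h))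
    have h2 := ENNReal.Tendsto.const_mul (a := 2) h1 (Or.inr (by norm_num))
    have h3 := ENNReal.Tendsto.const_mul (a := chi x ^ 2) h2 (Or.inr (ENNReal.pow_ne_top hc))
    simpa only [mul_zero] using h3
  have hT := (hA.add hB).add hC
  rw [add_zero, add_zero] at hT
  have h4 : (0 : ℝ≥0∞) < 4⁻¹ := ENNReal.inv_pos.2 (by norm_num)
  have hev1 := hT.eventually (gt_mem_nhds h4)
  have hev2 := eventually_le_inv_pow (Q := Q) h.q_lt hY
  have hev3 : ∀ᶠ n : ℕ in atTop, Yc x ≤ Q₁⁻¹ ^ (3 * n) :=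
    (tendsto_atTop_mono (fun n : ℕ => (by omega : n ≤ 3 * n)) tendsto_id).eventually
      (eventually_le_inv_pow (Q := Q₁) hQ₁ hY)
  obtain ⟨K, hK1, hK2, hK3, hK0⟩ :=
    (hev1.and (hev2.and (hev3.and (eventually_gt_atTop 0)))).exists
  refine ⟨K, hK0, hK3, (theta_le h hK0 (one_le_Yc x) hK2).trans ?_⟩
  refine mul_le_mul_right ?_ _
  have h5 : chi x ^ 2 * (Yc x)⁻¹ = 4⁻¹ := by
    unfold Yc
    rw [ENNReal.mul_inv (Or.inl (by norm_num)) (Or.inl (by norm_num)), mul_comm (4⁻¹ : ℝ≥0∞),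
      ← mul_assoc, ENNReal.mul_inv_cancel (pow_ne_zero _ hc0) (ENNReal.pow_ne_top hc), one_mul]
  rw [h5]
  have h6 : (4⁻¹ : ℝ≥0∞) + 4⁻¹ = 2⁻¹ := by
    have h7 : (4 : ℝ≥0∞)⁻¹ = 2⁻¹ * 2⁻¹ := by
      rw [← ENNReal.mul_inv (Or.inl (by norm_num)) (Or.inl (by norm_num))]
      norm_num
    rw [h7, ← mul_add, ENNReal.inv_two_add_inv_two, mul_one]
  rw [← h6]
  calc _ = (2 * (eps x Q K * (chi x + eps x Q K)) + 2 * chi x ^ 4 * Q ^ (2 * K) +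
        chi x ^ 2 * (2 * ∑' k : ℕ, ((k + K : ℕ) : ℝ≥0∞) * nn x Q (k + K))) + 4⁻¹ := by ring
    _ ≤ _ := by gcongr

end Pool.Agent.MG
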