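import Pool.Agent.Lib_helper74.MG.Walks

/-!
# Mass gap of pairs of strands, III: Hammersley-Welsh in the diagonal direction (helper74)
-/

set_option autoImplicit false

namespace Pool.Agent.MG

open Pool.Agent.Lib27 Pool.Agent.SapR Finset
open scoped ENNReal

/-! ### reflection in an antidiagonal -/

/-- reflection of steps -/
def ra (d : Fin 4) : Fin 4 := ![3, 2, 1, 0] d

theorem ra_ra (d : Fin 4) : ra (ra d) = d := by revert d; decide

theorem dv_ra (d : Fin 4) : dv (ra d) = (-(dv d).2, -(dv d).1) := by revert d; decide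

/-- reflected word -/
def rfa (s : Wd) : Wd := s.map ra

theorem rfa_rfa (s : Wd) : rfa (rfa s) = s := by
  unfold rfa
  rw [List.map_map]
  conv_rhs => rw [← List.map_id s]
  apply List.map_congr_left
  intro d _
  exact ra_ra d

theorem vt_rfa (s : Wd) (p : ℤ × ℤ) :
    vt (-p.2, -p.1) (rfa s) = (vt p s).map (fun v => (-v.2, -v.1)) := by
  induction s generalizing p with
  | nil => simp [rfa]
  | cons d s ih =>
    show vt _ (ra d :: rfa s) = _
    rw [vt_cons, vt_cons, List.map_cons, ← ih (p + dv d), dv_ra]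
    congr 2
    ext
    · simp; ring
    · simp; ring

theorem vt_rfa0 (s : Wd) : vt 0 (rfa s) = (vt 0 s).map (fun v => (-v.2, -v.1)) := by
  have h0 : ((-(0 : ℤ × ℤ).2, -(0 : ℤ × ℤ).1) : ℤ × ℤ) = 0 := Prod.ext (by simp) (by simp)
  have := vt_rfa s 0
  rw [h0] at this
  exact this

theorem rfa_length (s : Wd) : (rfa s).length = s.length := by simp [rfa]

theorem SAWs_rfa {s : Wd} (h : SAWs s) : SAWs (rfa s) := by
  unfold SAWs at *
  rw [vt_rfa0]
  apply h.map
  intro a b hab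
  simp only [Prod.mk.injEq, neg_inj] at hab
  exact Prod.ext hab.2 hab.1

theorem rfa_injective : Function.Injective rfa := fun a b h => by
  rw [← rfa_rfa a, h, rfa_rfa]

/-! ### half-space words -/

/-- half-space words of width at most `A` -/
def Hf (A : ℕ) : Set Wd := {w | SAWs w ∧ ∀ p ∈ (vt 0 w).tail, 0 < lev p ∧ lev p ≤ A}

/-- half-space words -/
def Hsp : Set Wd := {w | SAWs w ∧ ∀ p ∈ (vt 0 w).tail, 0 < lev p}

/-- bridges which may visit the top level several times -/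
def Bw (A : ℕ) : Set Wd :=
  {w | SAWs w ∧ lev (ep 0 w) = A ∧ ∀ p ∈ (vt 0 w).tail, 0 < lev p ∧ lev p ≤ A}

theorem gw_singleton (x : ℝ≥0∞) (w : Wd) : gw x {w} = x ^ w.length := by
  unfold gw
  exact tsum_singleton w (fun w : Wd => x ^ w.length)

theorem gw_Bw_mul (x : ℝ≥0∞) {A : ℕ} (hA : 0 < A) : gw x (Bw A) * x ≤ gw x (Bri (A + 1)) := by
  have h1 : gw x (Bw A) * gw x {([0] : Wd)} ≤ gw x (Bri (A + 1)) := by
    apply gw_concat
    · rintro u ⟨hu1, hu2, hu3⟩ v rfl
      have hu : u ≠ [] := ne_nil_of_Tp hA hu2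
      have hle : ∀ p ∈ vt 0 u, lev p ≤ A := by
        intro p hp
        rw [vt_head, List.mem_cons] at hp
        rcases hp with rfl | hp
        · simp
        · exact (hu3 p hp).2
      refine ⟨?_, ?_, ?_⟩
      · unfold SAWs
        rw [vt_append', vt_cons, List.tail_cons, vt_nil, List.nodup_append']
        refine ⟨hu1, by simp, ?_⟩
        intro p hp hp'
        rw [List.mem_singleton] at hp'
        have h2 := hle p hp
        rw [hp', lev_add, hu2] at h2
        have h3 : lev (dv 0) = 1 := by decide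
        omega
      · rw [lev_ep_append, hu2, ep_cons, ep_nil, zero_add]
        have h3 : lev (dv 0) = 1 := by decide
        rw [h3]; push_cast; ring
      · intro p hp
        have h4 : (vs 0 (u ++ [0])).tail = (vt 0 u).tail := by
          rw [vs_append, vs_cons, vs_nil]
          rfl
        rw [h4] at hp
        have := hu3 p hp
        push_cast
        omega
    · rintro u _ v rfl u' _ v' rfl h
      exact List.append_cancel_right h
  rwa [gw_singleton, List.length_singleton, pow_one] at h1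

theorem gw_Hf_succ (x : ℝ≥0∞) (A : ℕ) :
    gw x (Hf (A + 1)) ≤ (1 + gw x (Bw (A + 1))) * gw x (Hf A) := by
  have h1 : gw x (Hf (A + 1)) ≤ gw x (Hf A) +
      gw x {w | w ∈ Hf (A + 1) ∧ ∃ v ∈ vt 0 w, lev v = (A : ℤ) + 1} := by
    refine (gw_mono ?_).trans (gw_union x _ _)
    intro w hw
    by_cases h : ∃ v ∈ vt 0 w, lev v = (A : ℤ) + 1
    · exact Or.inr ⟨hw, h⟩
    · push Not at h
      refine Or.inl ⟨hw.1, fun p hp => ⟨(hw.2 p hp).1, ?_⟩⟩
      have h2 := (hw.2 p hp).2
      have h3 := h p (List.mem_of_mem_tail hp)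
      push_cast at h2
      omega
  have h2 : gw x {w | w ∈ Hf (A + 1) ∧ ∃ v ∈ vt 0 w, lev v = (A : ℤ) + 1} ≤
      gw x (Bw (A + 1)) * gw x {v | rfa v ∈ Hf A} := by
    apply gw_split2
    rintro w ⟨⟨hsaw, hw⟩, hex⟩
    obtain ⟨l₁, l₂, rfl, hP, hlast⟩ := split_last (fun v => lev v = (A : ℤ) + 1) w 0 hex
    have hP : lev (ep 0 l₁) = (A : ℤ) + 1 := hP
    refine ⟨l₁, l₂, ⟨SAWs_left hsaw, by rw [hP]; push_cast; ring, ?_⟩, ⟨SAWs_rfa (SAWs_right hsaw), ?_⟩,
      rfl⟩
    · intro v hv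
      exact hw v (by rw [vt_tail_append]; exact List.mem_append_left _ hv)
    · intro v hv
      rw [vt_rfa0, ← List.map_tail, List.mem_map] at hv
      obtain ⟨p, hp, rfl⟩ := hv
      have hp' : p + ep 0 l₁ ∈ (vt (ep 0 l₁) l₂).tail := by
        rw [vt_tail_map, List.mem_map]
        exact ⟨p, hp, rfl⟩
      have h3 := hlast _ hp'
      have h4 := hw (p + ep 0 l₁) (by rw [vt_tail_append]; exact List.mem_append_right _ hp')
      rw [lev_add, hP] at h4 h3
      push_cast at h4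
      have h5 : lev (-p.2, -p.1) = -lev p := by simp only [lev]; ring
      show 0 < lev (-p.2, -p.1) ∧ lev (-p.2, -p.1) ≤ (A : ℤ)
      rw [h5]
      omega
  have h3 : gw x {v | rfa v ∈ Hf A} ≤ gw x (Hf A) :=
    gw_le_map x rfa (fun w hw => hw) (fun a _ b _ h => rfa_injective h) fun w _ => rfa_length w
  calc gw x (Hf (A + 1)) ≤ gw x (Hf A) + gw x (Bw (A + 1)) * gw x (Hf A) :=
        h1.trans (add_le_add_right (h2.trans (mul_le_mul_right h3 _)) _)
    _ = _ := by ring

theorem gw_Hf_zero (x : ℝ≥0∞) : gw x (Hf 0) ≤ 1 := by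
  apply gw_le_one_of_nil
  rintro w ⟨-, hw⟩
  by_contra hne
  have := hw _ (ep_mem_tail 0 w hne)
  push_cast at this
  omega

theorem gw_Hf_le (x : ℝ≥0∞) (A : ℕ) :
    gw x (Hf A) ≤ ∏ a ∈ range A, (1 + gw x (Bw (a + 1))) := by
  induction A with
  | zero => simpa using gw_Hf_zero x
  | succ A ih =>
    rw [prod_range_succ, mul_comm]
    exact (gw_Hf_succ x A).trans (mul_le_mul_right ih _)

theorem lev_le_length (s : Wd) : ∀ (p v : ℤ × ℤ), v ∈ vt p s → lev v ≤ lev p + s.length := by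
  induction s with
  | nil =>
    intro p v hv
    simp only [vt_nil, List.mem_singleton] at hv
    subst hv
    simp
  | cons d s ih =>
    intro p v hv
    rw [vt_cons, List.mem_cons] at hv
    rcases hv with rfl | hv
    · simp only [List.length_cons]; push_cast; omega
    · have h1 := ih _ _ hv
      rw [lev_add] at h1
      simp only [List.length_cons, Nat.cast_add, Nat.cast_one]
      rcases lev_dv d with h2 | h2 <;> omega

/-- truncation by length -/
theorem gw_le_of_truncate {x c : ℝ≥0∞} {S : Set Wd}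
    (h : ∀ N : ℕ, gw x (S ∩ {w | w.length ≤ N}) ≤ c) : gw x S ≤ c := by
  unfold gw
  rw [ENNReal.tsum_eq_iSup_sum]
  refine iSup_le fun F => ?_
  set N := F.sup (fun w : S => (w : Wd).length) with hN
  refine le_trans ?_ (h N)
  have h1 : ∑ a ∈ F, x ^ (a : Wd).length = ∑' a : (F : Set S), x ^ ((a : S) : Wd).length :=
    (Finset.tsum_subtype F (fun a : S => x ^ (a : Wd).length)).symm
  rw [h1]
  refine tsum_le_of_inj (fun a : S => x ^ (a : Wd).length) (fun w : Wd => x ^ w.length)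
    (fun a : S => (a : Wd)) ?_ ?_ ?_
  · intro a ha
    exact ⟨a.2, Finset.le_sup (f := fun w : S => (w : Wd).length) ha⟩
  · intro a _ b _ hab
    exact Subtype.ext hab
  · intro a _
    exact le_rfl

theorem gw_Hsp_le {x c : ℝ≥0∞} (h : ∀ A, gw x (Hf A) ≤ c) : gw x Hsp ≤ c := by
  apply gw_le_of_truncate
  intro N
  refine (gw_mono ?_).trans (h N)
  rintro w ⟨⟨h1, h2⟩, h3⟩
  refine ⟨h1, fun p hp => ⟨h2 p hp, ?_⟩⟩
  have h4 := lev_le_length w 0 p (List.mem_of_mem_tail hp)
  have h5 : w.length ≤ N := h3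
  simp only [lev_zero] at h4
  omega

theorem chi_mul_le (x : ℝ≥0∞) : x * chi x ≤ gw x Hsp * gw x Hsp := by
  rw [← gp_prod, chi, gw, ← ENNReal.tsum_mul_left]
  have key : ∀ w ∈ SW, ∃ u v : Wd, w = u ++ v ∧ (0 :: rv u) ∈ Hsp ∧ v ∈ Hsp := by
    intro w hw
    have hex : ∃ v ∈ vt 0 w, (∀ z ∈ vt 0 w, lev v ≤ lev z) := by
      classical
      obtain ⟨v, hv, hmin⟩ := Finset.exists_min_image (vt 0 w).toFinset (fun v => lev v)
        ⟨0, by rw [List.mem_toFinset]; exact mem_vt_self 0 w⟩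
      exact ⟨v, List.mem_toFinset.1 hv, fun z hz => hmin z (List.mem_toFinset.2 hz)⟩
    obtain ⟨u, v, rfl, hP, hlast⟩ := split_last (fun v => ∀ z ∈ vt 0 w, lev v ≤ lev z) w 0 hex
    have hP : ∀ z ∈ vt 0 (u ++ v), lev (ep 0 u) ≤ lev z := hP
    refine ⟨u, v, rfl, ⟨?_, ?_⟩, ⟨SAWs_right hw, ?_⟩⟩
    · -- self-avoidance
      unfold SAWs
      rw [vt_cons, List.nodup_cons]
      refine ⟨?_, (nodup_vt _ _).2 (SAWs_rv (SAWs_left hw))⟩
      intro h
      rw [zero_add, vt_eq, List.mem_map] at h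
      obtain ⟨q, hq, hq0⟩ := h
      have h1 : q + ep 0 u ∈ vt (ep 0 u) (rv u) := by
        rw [vt_eq]; exact List.mem_map.2 ⟨q, hq, rfl⟩
      rw [vt_rv0, List.mem_reverse] at h1
      have h2 := hP _ (mem_vt_append_left v h1)
      have h3 := congrArg lev hq0
      rw [lev_add, lev_zero] at h3
      rw [lev_add] at h2
      have h4 : lev (dv 0) = 1 := by decide
      omega
    · intro p hp
      rw [vt_cons, List.tail_cons, zero_add, vt_eq, List.mem_map] at hp
      obtain ⟨q, hq, rfl⟩ := hp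
      have h1 : q + ep 0 u ∈ vt (ep 0 u) (rv u) := by
        rw [vt_eq]; exact List.mem_map.2 ⟨q, hq, rfl⟩
      rw [vt_rv0, List.mem_reverse] at h1
      have h2 := hP _ (mem_vt_append_left v h1)
      rw [lev_add] at h2 ⊢
      have h4 : lev (dv 0) = 1 := by decide
      omega
    · intro p hp
      have hp' : p + ep 0 u ∈ (vt (ep 0 u) v).tail := by
        rw [vt_tail_map, List.mem_map]
        exact ⟨p, hp, rfl⟩
      have h1 := hlast _ hp'
      have h2 := hP _ (mem_vt_append_right u (List.mem_of_mem_tail hp))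
      rw [lev_add] at h2
      by_contra hcon
      apply h1
      intro z hz
      have h3 := hP z hz
      rw [lev_add]
      omega
  choose! u v he hu hv using key
  refine tsum_le_of_inj (S := SW) (fun w : Wd => x * x ^ w.length)
    (fun p : Wd × Wd => x ^ (p.1.length + p.2.length))
    (fun w => (0 :: rv (u w), v w)) (fun w hw => ⟨hu w hw, hv w hw⟩) ?_ ?_
  · intro w hw w' hw' heq
    have h1 : (0 :: rv (u w) : Wd) = 0 :: rv (u w') := congrArg Prod.fst heq
    have h2 : v w = v w' := congrArg Prod.snd heq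
    have h3 : u w = u w' := rv_injective (List.cons_injective h1)
    rw [he w hw, he w' hw', h2, h3]
  · intro w hw
    show x * x ^ w.length ≤ x ^ ((0 :: rv (u w) : Wd).length + (v w).length)
    conv_lhs => rw [he w hw]
    rw [List.length_append, List.length_cons, rv_length, ← pow_succ']
    refine le_of_eq ?_
    congr 1
    ring

theorem prod_le_exp (c q : ℝ) (hc : 0 ≤ c) (hq : 0 ≤ q) (hq1 : q < 1) (A : ℕ) :
    ∏ a ∈ range A, (1 + c * q ^ a) ≤ Real.exp (c / (1 - q)) := by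
  have h1 : ∏ a ∈ range A, (1 + c * q ^ a) ≤ Real.exp (∑ a ∈ range A, c * q ^ a) := by
    rw [Real.exp_sum]
    apply prod_le_prod
    · intro a _; positivity
    · intro a _
      have := Real.add_one_le_exp (c * q ^ a)
      linarith
  refine h1.trans (Real.exp_le_exp.2 ?_)
  rw [← mul_sum, div_eq_mul_inv]
  refine mul_le_mul_of_nonneg_left ?_ hc
  have h2 := (summable_geometric_of_lt_one hq hq1).sum_le_tsum (range A) (fun a _ => by positivity)
  rwa [tsum_geometric_of_lt_one hq hq1] at h2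

/-- Hammersley-Welsh bound -/
theorem chi_le_of_bridges {x₀ x q : ℝ} (hx₀ : 0 < x₀) (hx : x₀ ≤ x) (hq : 0 ≤ q) (hq1 : q < 1)
    (h : ∀ H : ℕ, gw (ENNReal.ofReal x) (Bri H) ≤ ENNReal.ofReal (q ^ H)) :
    chi (ENNReal.ofReal x) ≤ ENNReal.ofReal
      (x₀⁻¹ * (Real.exp (x₀⁻¹ / (1 - q)) * Real.exp (x₀⁻¹ / (1 - q)))) := by
  have hx0 : 0 < x := lt_of_lt_of_le hx₀ hx
  have hxe : ENNReal.ofReal x ≠ 0 := by simpa using hx0
  have h1 : ∀ a : ℕ, gw (ENNReal.ofReal x) (Bw (a + 1)) ≤ ENNReal.ofReal (x₀⁻¹ * q ^ a) := by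
    intro a
    have h2 := (gw_Bw_mul (ENNReal.ofReal x) (A := a + 1) (by omega)).trans (h (a + 1 + 1))
    have h3 : gw (ENNReal.ofReal x) (Bw (a + 1)) ≤
        ENNReal.ofReal (q ^ (a + 1 + 1)) * (ENNReal.ofReal x)⁻¹ := by
      rw [← div_eq_mul_inv]
      exact (ENNReal.le_div_iff_mul_le (Or.inl hxe) (Or.inl ENNReal.ofReal_ne_top)).2 h2
    refine h3.trans ?_
    rw [← ENNReal.ofReal_inv_of_pos hx0, ← ENNReal.ofReal_mul (by positivity)]
    apply ENNReal.ofReal_le_ofReal
    rw [mul_comm]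
    have h4 : x⁻¹ ≤ x₀⁻¹ := inv_anti₀ hx₀ hx
    have h5 : q ^ (a + 1 + 1) ≤ q ^ a := pow_le_pow_of_le_one hq hq1.le (by omega)
    exact mul_le_mul h4 h5 (by positivity) (by positivity)
  have h2 : ∀ A, gw (ENNReal.ofReal x) (Hf A) ≤ ENNReal.ofReal (Real.exp (x₀⁻¹ / (1 - q))) := by
    intro A
    refine (gw_Hf_le _ A).trans ?_
    calc ∏ a ∈ range A, (1 + gw (ENNReal.ofReal x) (Bw (a + 1)))
        ≤ ∏ a ∈ range A, ENNReal.ofReal (1 + x₀⁻¹ * q ^ a) := by
          refine Finset.prod_le_prod' fun a _ => ?_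
          rw [ENNReal.ofReal_add (by norm_num) (by positivity), ENNReal.ofReal_one]
          exact add_le_add_right (h1 a) _
      _ = ENNReal.ofReal (∏ a ∈ range A, (1 + x₀⁻¹ * q ^ a)) :=
          (ENNReal.ofReal_prod_of_nonneg fun a _ => by positivity).symm
      _ ≤ _ := ENNReal.ofReal_le_ofReal (prod_le_exp _ _ (by positivity) hq hq1 A)
  have h3 := gw_Hsp_le h2
  have h4 := (chi_mul_le (ENNReal.ofReal x)).trans (mul_le_mul' h3 h3)
  rw [← ENNReal.ofReal_mul (by positivity), mul_comm] at h4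
  have h5 : chi (ENNReal.ofReal x) ≤
      ENNReal.ofReal (Real.exp (x₀⁻¹ / (1 - q)) * Real.exp (x₀⁻¹ / (1 - q))) *
        (ENNReal.ofReal x)⁻¹ := by
    rw [← div_eq_mul_inv]
    exact (ENNReal.le_div_iff_mul_le (Or.inl hxe) (Or.inl ENNReal.ofReal_ne_top)).2 h4
  refine h5.trans ?_
  rw [← ENNReal.ofReal_inv_of_pos hx0, ← ENNReal.ofReal_mul (by positivity), mul_comm]
  apply ENNReal.ofReal_le_ofReal
  have h4 : x⁻¹ ≤ x₀⁻¹ := inv_anti₀ hx₀ hx
  exact mul_le_mul_of_nonneg_right h4 (by positivity)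

/-! ### the critical point of self-avoiding walks -/

/-- critical point `1 / μ` -/
noncomputable def xc : ℝ := Real.exp (-Lm)

theorem xc_pos : 0 < xc := Real.exp_pos _

theorem gw_len_eq (x : ℝ≥0∞) (n : ℕ) : gw x {w | w ∈ SW ∧ w.length = n} = (Cs n).card * x ^ n := by
  have h1 : {w : Wd | w ∈ SW ∧ w.length = n} = (Cs n : Set Wd) := by
    ext w
    rw [Finset.mem_coe, mem_Cs]
    exact and_comm
  rw [h1]
  unfold gw
  have h2 := Finset.tsum_subtype (Cs n) (fun w : Wd => x ^ w.length)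
  refine h2.trans ?_
  rw [Finset.sum_congr rfl (g := fun _ => x ^ n) (fun w hw => by rw [((mem_Cs n w).1 hw).1]),
    Finset.sum_const, nsmul_eq_mul]

theorem chi_lower (x : ℝ≥0∞) (N : ℕ) : ∑ n ∈ range N, ((Cs n).card : ℝ≥0∞) * x ^ n ≤ chi x := by
  have h1 : ∑ n ∈ range N, ((Cs n).card : ℝ≥0∞) * x ^ n =
      ∑ w ∈ (range N).biUnion Cs, x ^ w.length := by
    rw [Finset.sum_biUnion]
    · refine Finset.sum_congr rfl fun n _ => ?_
      rw [Finset.sum_congr rfl (g := fun _ => x ^ n) (fun w hw => by rw [((mem_Cs n w).1 hw).1]),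
        Finset.sum_const, nsmul_eq_mul]
    · intro n _ m _ hnm
      refine Finset.disjoint_left.2 fun w hw hw' => hnm ?_
      rw [← ((mem_Cs n w).1 hw).1, ((mem_Cs m w).1 hw').1]
  rw [h1, ← Finset.tsum_subtype]
  refine tsum_le_of_inj (fun w : Wd => x ^ w.length) (fun w : Wd => x ^ w.length) (fun w => w)
    ?_ (Set.injOn_id _) fun _ _ => le_rfl
  intro w hw
  obtain ⟨n, -, hn⟩ := Finset.mem_biUnion.1 (Finset.mem_coe.1 hw)
  exact ((mem_Cs n w).1 hn).2

theorem chi_unbounded (C : ℝ) : ∃ x : ℝ, 0 < x ∧ x < xc ∧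
    ENNReal.ofReal C < chi (ENNReal.ofReal x) := by
  obtain ⟨N, hN⟩ := exists_nat_gt (2 * (|C| + 1))
  have hN0 : (0 : ℝ) < N := by
    have := abs_nonneg C
    linarith
  -- choose x with (x / xc) ^ N ≥ 1/2
  have hc : Filter.Tendsto (fun t : ℝ => t ^ N) (nhds 1) (nhds 1) := by
    have := (continuous_pow N).tendsto (1 : ℝ)
    simpa using this
  have hev : ∀ᶠ t in nhds (1 : ℝ), (1 / 2 : ℝ) < t ^ N :=
    hc.eventually (lt_mem_nhds (by norm_num))
  obtain ⟨t, ht1, ht2, ht3⟩ : ∃ t : ℝ, 0 < t ∧ t < 1 ∧ (1 / 2 : ℝ) < t ^ N := by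
    have h1 : ∀ᶠ t in nhdsWithin (1 : ℝ) (Set.Iio 1), (1 / 2 : ℝ) < t ^ N :=
      hev.filter_mono nhdsWithin_le_nhds
    have h2 : ∀ᶠ t in nhdsWithin (1 : ℝ) (Set.Iio 1), t < 1 := self_mem_nhdsWithin
    have h3 : ∀ᶠ t in nhdsWithin (1 : ℝ) (Set.Iio 1), (0 : ℝ) < t :=
      (lt_mem_nhds (by norm_num : (0 : ℝ) < 1)).filter_mono nhdsWithin_le_nhds
    obtain ⟨t, h⟩ := (h1.and (h2.and h3)).exists
    exact ⟨t, h.2.2, h.2.1, h.1⟩
  have hxc := xc_pos
  refine ⟨t * xc, by positivity, by nlinarith, ?_⟩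
  refine lt_of_lt_of_le ?_ (chi_lower (ENNReal.ofReal (t * xc)) N)
  have h1 : ∀ n ∈ range N, ENNReal.ofReal (1 / 2) ≤
      ((Cs n).card : ℝ≥0∞) * ENNReal.ofReal (t * xc) ^ n := by
    intro n hn
    have h2 := cs_ge n
    rw [← ENNReal.ofReal_natCast, ← ENNReal.ofReal_pow (by positivity),
      ← ENNReal.ofReal_mul (by positivity)]
    apply ENNReal.ofReal_le_ofReal
    have h3 : (1 / 2 : ℝ) ≤ t ^ n := by
      have : t ^ N ≤ t ^ n := pow_le_pow_of_le_one ht1.le ht2.le (by
        have := mem_range.1 hn; omega)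
      linarith
    have h4 : Real.exp (n * Lm) * xc ^ n = 1 := by
      unfold xc
      rw [← Real.exp_nat_mul, ← Real.exp_add]
      simp
    calc (1 / 2 : ℝ) ≤ t ^ n := h3
      _ = t ^ n * (Real.exp (n * Lm) * xc ^ n) := by rw [h4, mul_one]
      _ ≤ t ^ n * ((Cs n).card * xc ^ n) := by gcongr
      _ = _ := by rw [mul_pow]; ring
  calc ENNReal.ofReal C < ENNReal.ofReal (N * (1 / 2)) := by
        apply (ENNReal.ofReal_lt_ofReal_iff (by positivity)).2
        have := le_abs_self C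
        linarith
    _ = ∑ _n ∈ range N, ENNReal.ofReal (1 / 2) := by
        rw [Finset.sum_const, card_range, nsmul_eq_mul, ENNReal.ofReal_mul (by positivity),
          ENNReal.ofReal_natCast]
    _ ≤ _ := Finset.sum_le_sum h1

theorem chi_finite {x : ℝ} (hx0 : 0 < x) (hx : x < xc) : chi (ENNReal.ofReal x) < ∞ := by
  -- growth bound
  set t : ℝ := (Lm - Real.log x) / 2 with ht
  have hlog : Real.log x < -Lm := by
    have := Real.log_lt_log hx0 hx
    unfold xc at this
    rwa [Real.log_exp] at this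
  set L' : ℝ := (Lm + (-Real.log x)) / 2 with hL'
  have h1 : Lm < L' := by rw [hL']; linarith
  have h2 : L' < -Real.log x := by rw [hL']; linarith
  have hev : ∀ᶠ n : ℕ in Filter.atTop, Real.log (Cs n).card / n < L' :=
    tendsto_cs.eventually (gt_mem_nhds h1)
  obtain ⟨N, hN⟩ := Filter.eventually_atTop.1 hev
  set r : ℝ := x * Real.exp L' with hr
  have hr0 : 0 < r := by positivity
  have hr1 : r < 1 := by
    have h3 : Real.exp L' < x⁻¹ := by
      rw [← Real.exp_log (inv_pos.2 hx0), Real.log_inv]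
      exact Real.exp_lt_exp.2 h2
    calc r < x * x⁻¹ := mul_lt_mul_of_pos_left h3 hx0
      _ = 1 := mul_inv_cancel₀ hx0.ne'
  have hterm : ∀ n : ℕ, ((Cs n).card : ℝ≥0∞) * ENNReal.ofReal x ^ n ≤
      ENNReal.ofReal ((if n ≤ N then (4 * x) ^ n else 0) + r ^ n) := by
    intro n
    rw [← ENNReal.ofReal_natCast, ← ENNReal.ofReal_pow hx0.le,
      ← ENNReal.ofReal_mul (by positivity)]
    apply ENNReal.ofReal_le_ofReal
    by_cases hn : n ≤ N
    · rw [if_pos hn]
      have h3 : ((Cs n).card : ℝ) ≤ 4 ^ n := by exact_mod_cast Cs_le n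
      have h4 : ((Cs n).card : ℝ) * x ^ n ≤ (4 * x) ^ n := by
        rw [mul_pow]; gcongr
      have : 0 ≤ r ^ n := by positivity
      linarith
    · rw [if_neg hn, zero_add]
      push Not at hn
      have h3 := hN n hn.le
      have hn0 : (0 : ℝ) < n := by
        have : 0 < n := by omega
        exact_mod_cast this
      rw [div_lt_iff₀ hn0] at h3
      have h4 : (0 : ℝ) < (Cs n).card := by
        have := Cs_pos n
        exact_mod_cast this
      have h5 : ((Cs n).card : ℝ) ≤ Real.exp (n * L') := by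
        rw [← Real.exp_log h4]
        apply Real.exp_le_exp.2
        linarith
      calc ((Cs n).card : ℝ) * x ^ n ≤ Real.exp (n * L') * x ^ n := by gcongr
        _ = r ^ n := by rw [hr, mul_pow, ← Real.exp_nat_mul]; ring
  have h5 : chi (ENNReal.ofReal x) ≤ ∑' n : ℕ, gw (ENNReal.ofReal x) {w | w ∈ SW ∧ w.length = n} := by
    refine (gw_mono ?_).trans (gw_iUnion _ _)
    intro w hw
    exact Set.mem_iUnion.2 ⟨w.length, hw, rfl⟩
  refine lt_of_le_of_lt h5 ?_
  have hsum : Summable fun n : ℕ => (if n ≤ N then (4 * x) ^ n else 0) + r ^ n := by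
    apply Summable.add
    · apply summable_of_ne_finset_zero (s := range (N + 1))
      intro n hn
      rw [if_neg]
      rw [mem_range] at hn
      omega
    · exact summable_geometric_of_lt_one hr0.le hr1
  calc ∑' n : ℕ, gw (ENNReal.ofReal x) {w | w ∈ SW ∧ w.length = n}
      ≤ ∑' n : ℕ, ENNReal.ofReal ((if n ≤ N then (4 * x) ^ n else 0) + r ^ n) :=
        ENNReal.tsum_le_tsum fun n => by rw [gw_len_eq]; exact hterm n
    _ = ENNReal.ofReal (∑' n : ℕ, ((if n ≤ N then (4 * x) ^ n else 0) + r ^ n)) :=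
        (ENNReal.ofReal_tsum_of_nonneg (fun n => by positivity) hsum).symm
    _ < ∞ := ENNReal.ofReal_lt_top

end Pool.Agent.MG
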